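import Mathlib

section

/-!
# Lexicographic maximisation along a well-ordered family of functions
-/

set_option autoImplicit false

open Set

namespace FremlinSC49

set_option linter.unusedSectionVars false

variable {E : Type*} [TopologicalSpace E]

private lemma sup_attained {C : Set E} (hC : IsCompact C) (hne : C.Nonempty) {u : E → ℝ}
    (hu : Continuous u) : ∃ x ∈ C, u x = sSup (u '' C) := by
  obtain ⟨x, hx, hmax⟩ := hC.exists_isMaxOn hne hu.continuousOn
  refine ⟨x, hx, ?_⟩
  apply le_antisymm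
  · exact le_csSup (hC.image hu).bddAbove (mem_image_of_mem u hx)
  · apply csSup_le (hne.image u)
    rintro _ ⟨y, hy, rfl⟩
    exact hmax hy

private lemma le_sup {C : Set E} (hC : IsCompact C) {u : E → ℝ} (hu : Continuous u) {x : E}
    (hx : x ∈ C) : u x ≤ sSup (u '' C) :=
  le_csSup (hC.image hu).bddAbove (mem_image_of_mem u hx)

/-- The maximum of `v` over the set of maximisers of `u`. -/
lemma sup_on_max {C : Set E} (hC : IsCompact C) (hne : C.Nonempty) {u v : E → ℝ}
    (hu : Continuous u) (hv : Continuous v) :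
    sSup (v '' {x ∈ C | u x = sSup (u '' C)}) =
      ⨅ n : ℕ, (sSup ((fun x => v x + n * u x) '' C) - n * sSup (u '' C)) := by
  set M := sSup (u '' C) with hM
  set D := {x ∈ C | u x = M} with hD
  have hDc : IsCompact D := hC.inter_right (isClosed_eq hu continuous_const)
  have hDne : D.Nonempty := by
    obtain ⟨x, hx, hxM⟩ := sup_attained hC hne hu
    exact ⟨x, hx, hxM⟩
  have hw : ∀ n : ℕ, Continuous fun x => v x + n * u x := fun n =>
    hv.add (continuous_const.mul hu)
  obtain ⟨x0, hx0, hx0v⟩ := sup_attained hDc hDne hv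
  have hlow : ∀ n : ℕ, sSup (v '' D) ≤ sSup ((fun x => v x + n * u x) '' C) - n * M := by
    intro n
    have h1 : v x0 + n * u x0 ≤ sSup ((fun x => v x + n * u x) '' C) := le_sup hC (hw n) hx0.1
    rw [hx0.2, hx0v] at h1
    linarith
  apply le_antisymm
  · exact le_ciInf hlow
  · -- compactness
    set c := ⨅ n : ℕ, (sSup ((fun x => v x + n * u x) '' C) - n * M) with hc
    have hbdd : BddBelow (range fun n : ℕ => sSup ((fun x => v x + n * u x) '' C) - n * M) := by
      refine ⟨sSup (v '' D), ?_⟩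
      rintro _ ⟨n, rfl⟩
      exact hlow n
    have hcle : ∀ n : ℕ, c ≤ sSup ((fun x => v x + n * u x) '' C) - n * M := fun n =>
      ciInf_le hbdd n
    let t : ℕ → Set E := fun n => {x | c ≤ v x + n * (u x - M)}
    have htc : ∀ n, IsClosed (t n) := fun n =>
      isClosed_le continuous_const (hv.add (continuous_const.mul (hu.sub continuous_const)))
    have hne2 : (C ∩ ⋂ n, t n).Nonempty := by
      apply hC.inter_iInter_nonempty t htc
      intro s
      obtain ⟨N, hN⟩ : ∃ N, ∀ n ∈ s, n ≤ N := ⟨s.sup id, fun n hn => Finset.le_sup (f := id) hn⟩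
      obtain ⟨x, hx, hxs⟩ := sup_attained hC hne (hw N)
      refine ⟨x, hx, ?_⟩
      simp only [mem_iInter]
      intro n hn
      have h1 := hcle N
      rw [← hxs] at h1
      have h1' : c ≤ v x + N * u x - N * M := h1
      have h2 : u x ≤ M := le_sup hC hu hx
      have h3 : (n : ℝ) ≤ N := by exact_mod_cast hN n hn
      have h4 : (N : ℝ) * (u x - M) ≤ n * (u x - M) := by nlinarith
      change c ≤ v x + n * (u x - M)
      linarith
    obtain ⟨x, hx, hxt⟩ := hne2
    simp only [mem_iInter] at hxt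
    have hux : u x = M := by
      apply le_antisymm (le_sup hC hu hx)
      by_contra hlt
      push Not at hlt
      obtain ⟨n, hn⟩ := exists_nat_gt ((v x - c) / (M - u x))
      have h1 : c ≤ v x + n * (u x - M) := hxt n
      rw [div_lt_iff₀ (by linarith)] at hn
      linarith
    have hxD : x ∈ D := ⟨hx, hux⟩
    have h1 : c ≤ v x + (0 : ℕ) * (u x - M) := hxt 0
    have h2 := le_sup hDc hv hxD
    simp only [Nat.cast_zero, zero_mul, add_zero] at h1
    linarith

section stages

variable {ι : Type*} [LinearOrder ι] [WellFoundedLT ι]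

/-- The points of `C` which are lexicographically maximal up to the stage `a`. -/
noncomputable def stage (u : ι → E → ℝ) (C : Set E) : ι → Set E :=
  WellFoundedLT.fix (motive := fun _ : ι => Set E) fun a ih =>
    {x ∈ C | ∀ b (hb : b < a), u b x = sSup (u b '' ih b hb)}

variable (u : ι → E → ℝ) (C : Set E)

lemma stage_eq (a : ι) :
    stage u C a = {x ∈ C | ∀ b, b < a → u b x = sSup (u b '' stage u C b)} := by
  unfold stage
  rw [WellFoundedLT.fix_eq]

/-- The closed sets which are intersected. -/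
def lev (b : ι) : Set E := {x | u b x = sSup (u b '' stage u C b)}

lemma mem_stage {a : ι} {x : E} : x ∈ stage u C a ↔ x ∈ C ∧ ∀ b, b < a → x ∈ lev u C b := by
  rw [stage_eq]
  exact Iff.rfl

variable {u} {C}

lemma stage_mono {a b : ι} (h : a ≤ b) : stage u C b ⊆ stage u C a := by
  intro x hx
  rw [mem_stage] at hx ⊢
  exact ⟨hx.1, fun c hc => hx.2 c (hc.trans_le h)⟩

lemma lev_closed (hu : ∀ a, Continuous (u a)) (b : ι) : IsClosed (lev u C b) :=
  isClosed_eq (hu b) continuous_const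

lemma stage_compact (hu : ∀ a, Continuous (u a)) (hC : IsCompact C) (a : ι) :
    IsCompact (stage u C a) := by
  have h1 : stage u C a = C ∩ ⋂ b : {b // b < a}, lev u C b.1 := by
    ext x
    rw [mem_stage]
    simp only [mem_inter_iff, mem_iInter, Subtype.forall]
  rw [h1]
  exact hC.inter_right (isClosed_iInter fun b => lev_closed hu b.1)

/-- Compactness, in the form which is used below. -/
private lemma inter_aux (hu : ∀ a, Continuous (u a)) (hC : IsCompact C) (P : ι → Prop)
    (hP : ∀ b, P b → ∀ c, c < b → P c) (Z : Set E) (hZ : IsClosed Z) (hne : (C ∩ Z).Nonempty)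
    (h : ∀ b, P b → (stage u C b ∩ lev u C b ∩ Z).Nonempty) :
    ∃ x ∈ C, x ∈ Z ∧ ∀ b, P b → x ∈ lev u C b := by
  classical
  have h1 : ((C ∩ Z) ∩ ⋂ b : {b // P b}, lev u C b.1).Nonempty := by
    refine (hC.inter_right hZ).inter_iInter_nonempty (fun b : {b // P b} => lev u C b.1)
      (fun b => lev_closed hu b.1) ?_
    intro s
    rcases s.eq_empty_or_nonempty with rfl | hs
    · simpa using hne
    · obtain ⟨x, ⟨hx1, hx2⟩, hx3⟩ := h (s.max' hs).1 (s.max' hs).2
      rw [mem_stage] at hx1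
      refine ⟨x, ⟨hx1.1, hx3⟩, ?_⟩
      simp only [mem_iInter]
      intro b hb
      rcases (s.le_max' b hb).lt_or_eq with hlt | heq
      · exact hx1.2 b.1 hlt
      · rw [heq]; exact hx2
  obtain ⟨x, ⟨hx1, hx2⟩, hx3⟩ := h1
  simp only [mem_iInter, Subtype.forall] at hx3
  exact ⟨x, hx1, hx2, hx3⟩

lemma stage_nonempty (hu : ∀ a, Continuous (u a)) (hC : IsCompact C) (hne : C.Nonempty) (a : ι) :
    (stage u C a).Nonempty := by
  induction a using WellFoundedLT.induction with
  | ind a ih =>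
    obtain ⟨x, hx, -, hx2⟩ := inter_aux hu hC (fun b => b < a) (fun b hb c hc => hc.trans hb)
      univ isClosed_univ (by simpa using hne) (fun b hb => by
        obtain ⟨x, hx, hxs⟩ := sup_attained (stage_compact hu hC b) (ih b hb) (hu b)
        exact ⟨x, ⟨hx, hxs⟩, mem_univ _⟩)
    exact ⟨x, (mem_stage u C).2 ⟨hx, hx2⟩⟩

lemma stage_lev_nonempty (hu : ∀ a, Continuous (u a)) (hC : IsCompact C) (hne : C.Nonempty)
    (a : ι) : (stage u C a ∩ lev u C a).Nonempty := by
  obtain ⟨x, hx, hxs⟩ := sup_attained (stage_compact hu hC a) (stage_nonempty hu hC hne a) (hu a)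
  exact ⟨x, hx, hxs⟩

/-- A point which is maximal at all stages. -/
lemma exists_final (hu : ∀ a, Continuous (u a)) (hC : IsCompact C) (hne : C.Nonempty) :
    ∃ x ∈ C, ∀ a, x ∈ stage u C a := by
  obtain ⟨x, hx, -, hx2⟩ := inter_aux hu hC (fun _ => True) (fun _ _ _ _ => trivial)
    univ isClosed_univ (by simpa using hne) (fun b _ => by
      rw [inter_univ]
      exact stage_lev_nonempty hu hC hne b)
  exact ⟨x, hx, fun a => (mem_stage u C).2 ⟨hx, fun b _ => hx2 b trivial⟩⟩

/-- The maximum over a stage. -/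
lemma sup_stage (hu : ∀ a, Continuous (u a)) (hC : IsCompact C) (hne : C.Nonempty) {f : E → ℝ}
    (hf : Continuous f) (a : ι) (ha : ∃ b, b < a) :
    sSup (f '' stage u C a) = ⨅ b : {b // b < a}, sSup (f '' (stage u C b.1 ∩ lev u C b.1)) := by
  have hne1 := stage_nonempty hu hC hne a
  have hcomp : ∀ b, IsCompact (stage u C b ∩ lev u C b) := fun b =>
    (stage_compact hu hC b).inter_right (lev_closed hu b)
  obtain ⟨b0, hb0⟩ := ha
  have : Nonempty {b // b < a} := ⟨⟨b0, hb0⟩⟩
  have hlow : ∀ b : {b // b < a},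
      sSup (f '' stage u C a) ≤ sSup (f '' (stage u C b.1 ∩ lev u C b.1)) := by
    intro b
    apply csSup_le (hne1.image f)
    rintro _ ⟨x, hx, rfl⟩
    refine le_sup (hcomp b.1) hf ⟨stage_mono b.2.le hx, ?_⟩
    exact ((mem_stage u C).1 hx).2 b.1 b.2
  apply le_antisymm
  · exact le_ciInf hlow
  · set c := ⨅ b : {b // b < a}, sSup (f '' (stage u C b.1 ∩ lev u C b.1)) with hc
    have hbdd : BddBelow (range fun b : {b // b < a} =>
        sSup (f '' (stage u C b.1 ∩ lev u C b.1))) := by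
      refine ⟨sSup (f '' stage u C a), ?_⟩
      rintro _ ⟨b, rfl⟩
      exact hlow b
    have hex : ∀ b, b < a → (stage u C b ∩ lev u C b ∩ {x | c ≤ f x}).Nonempty := by
      intro b hb
      obtain ⟨x, hx, hxs⟩ := sup_attained (hcomp b) (stage_lev_nonempty hu hC hne b) hf
      refine ⟨x, hx, ?_⟩
      change c ≤ f x
      rw [hxs]
      exact ciInf_le hbdd ⟨b, hb⟩
    obtain ⟨x, hx, hxc, hx2⟩ := inter_aux hu hC (fun b => b < a) (fun b hb c hc => hc.trans hb)
      {x | c ≤ f x} (isClosed_le continuous_const hf) (by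
        obtain ⟨x, hx, hx'⟩ := hex b0 hb0
        exact ⟨x, ((mem_stage u C).1 hx.1).1, hx'⟩) hex
    have hxa : x ∈ stage u C a := (mem_stage u C).2 ⟨hx, hx2⟩
    exact le_trans hxc (le_sup (stage_compact hu hC a) hf hxa)

end stages

/-- **Measurability of the lexicographic selection.** -/
theorem lex_selector {ι : Type*} [LinearOrder ι] [WellFoundedLT ι]
    (hι : ∀ a : ι, (Iio a).Countable) (L : Set (E → ℝ)) (hLc : ∀ f ∈ L, Continuous f)
    (hLa : ∀ f ∈ L, ∀ g ∈ L, ∀ n : ℕ, (fun x => f x + n * g x) ∈ L)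
    (u : ι → E → ℝ) (hu : ∀ a, u a ∈ L)
    (hfin : ∀ f ∈ L, ∃ a : ι, ∀ x y, (∀ b, b < a → u b x = u b y) → f x = f y)
    (e0 : E) :
    ∃ ψ : Set E → E, (∀ C, C.Nonempty → IsCompact C → ψ C ∈ C) ∧
      ∀ (Ω : Type*) [MeasurableSpace Ω] (F : Ω → Set E),
        (∀ ω, (F ω).Nonempty ∧ IsCompact (F ω)) →
        (∀ f ∈ L, Measurable fun ω => sSup (f '' F ω)) →
        ∀ f ∈ L, Measurable fun ω => f (ψ (F ω)) := by
  classical
  have huc : ∀ a, Continuous (u a) := fun a => hLc _ (hu a)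
  have hex : ∀ C : Set E, ∃ x : E, C.Nonempty → IsCompact C → x ∈ C ∧ ∀ a, x ∈ stage u C a := by
    intro C
    by_cases h : C.Nonempty ∧ IsCompact C
    · obtain ⟨x, hx, hx2⟩ := exists_final huc h.2 h.1
      exact ⟨x, fun _ _ => ⟨hx, hx2⟩⟩
    · exact ⟨e0, fun h1 h2 => absurd ⟨h1, h2⟩ h⟩
  choose ψ hψ using hex
  refine ⟨ψ, fun C h1 h2 => (hψ C h1 h2).1, ?_⟩
  intro Ω _ F hF hmeas
  have hst : ∀ a : ι, ∀ f ∈ L, Measurable fun ω => sSup (f '' stage u (F ω) a) := by
    intro a
    induction a using WellFoundedLT.induction with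
    | ind a ih =>
      intro f hf
      have hlev : ∀ b, b < a → Measurable fun ω =>
          sSup (f '' (stage u (F ω) b ∩ lev u (F ω) b)) := by
        intro b hb
        have h1 : ∀ ω, sSup (f '' (stage u (F ω) b ∩ lev u (F ω) b)) =
            ⨅ n : ℕ, (sSup ((fun x => f x + n * u b x) '' stage u (F ω) b) -
              n * sSup (u b '' stage u (F ω) b)) := by
          intro ω
          exact sup_on_max (stage_compact huc (hF ω).2 b) (stage_nonempty huc (hF ω).2 (hF ω).1 b)
            (huc b) (hLc f hf)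
        simp only [h1]
        refine Measurable.iInf fun n => ?_
        exact (ih b hb _ (hLa f hf (u b) (hu b) n)).sub ((ih b hb (u b) (hu b)).const_mul _)
      by_cases ha : ∃ b, b < a
      · have h1 : ∀ ω, sSup (f '' stage u (F ω) a) =
            ⨅ b : {b // b < a}, sSup (f '' (stage u (F ω) b.1 ∩ lev u (F ω) b.1)) := fun ω =>
          sup_stage huc (hF ω).2 (hF ω).1 (hLc f hf) a ha
        simp only [h1]
        have : Countable {b // b < a} := (hι a).to_subtype
        exact Measurable.iInf fun b => hlev b.1 b.2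
      · have h1 : ∀ ω, stage u (F ω) a = F ω := by
          intro ω
          ext x
          rw [mem_stage]
          constructor
          · exact fun h => h.1
          · exact fun h => ⟨h, fun b hb => absurd ⟨b, hb⟩ ha⟩
        simp only [h1]
        exact hmeas f hf
  intro f hf
  obtain ⟨a, ha⟩ := hfin f hf
  have h1 : ∀ ω, f (ψ (F ω)) = sSup (f '' stage u (F ω) a) := by
    intro ω
    obtain ⟨hF1, hF2⟩ := hF ω
    have h2 := (hψ (F ω) hF1 hF2).2 a
    have h3 : ∀ x ∈ stage u (F ω) a, f x = f (ψ (F ω)) := by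
      intro x hx
      apply ha
      intro b hb
      have e1 : u b x = sSup (u b '' stage u (F ω) b) := ((mem_stage u (F ω)).1 hx).2 b hb
      have e2 : u b (ψ (F ω)) = sSup (u b '' stage u (F ω) b) :=
        ((mem_stage u (F ω)).1 h2).2 b hb
      rw [e1, e2]
    have h4 : f '' stage u (F ω) a = {f (ψ (F ω))} := by
      ext y
      constructor
      · rintro ⟨x, hx, rfl⟩
        exact h3 x hx
      · rintro rfl
        exact ⟨_, h2, rfl⟩
    rw [h4, csSup_singleton]
  simp only [h1]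
  exact hst a f hf

end FremlinSC49
end

section

/-!
# A criterion for property (SC)
-/

set_option autoImplicit false

open Set Cardinal MeasureTheory

namespace FremlinSC49

universe u v

variable (X : Type u) [NormedAddCommGroup X] [NormedSpace ℝ X]

/-- There is a map `ψ` on sets with `ψ C ∈ C` for every non-empty weakly compact `C ⊆ X` such that
for every measurable space `Ω` and every map `F` from `Ω` to the non-empty weakly compact subsets
of `X` which is scalarly measurable, `ψ ∘ F` is scalarly measurable. -/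
def StrongSC : Prop :=
  ∃ ψ : Set X → X,
    (∀ C : Set X, C.Nonempty → IsCompact ((toWeakSpace ℝ X) '' C) → ψ C ∈ C) ∧
    ∀ (Ω : Type v) (_ : MeasurableSpace Ω),
      ∀ F : Ω → Set X,
        (∀ ω, (F ω).Nonempty ∧ IsCompact ((toWeakSpace ℝ X) '' (F ω))) →
        (∀ (x' : X →L[ℝ] ℝ) (a : ℝ), MeasurableSet {ω | ∃ x ∈ F ω, a < x' x}) →
        ∀ x' : X →L[ℝ] ℝ, Measurable (fun ω => x' (ψ (F ω)))

variable {X}

/-- Every functional vanishes on the intersection of the kernels of countably many members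
of the family. -/
def Controlled (D : Set (X →L[ℝ] ℝ)) : Prop :=
  ∀ f : X →L[ℝ] ℝ, ∃ C ⊆ D, C.Countable ∧ ∀ x : X, (∀ c ∈ C, c x = 0) → f x = 0

lemma countable_Iio_om (a : (Cardinal.aleph.{u} 1).ord.ToType) : (Iio a).Countable := by
  rw [← Cardinal.le_aleph0_iff_set_countable]
  have h : #(Iio a) < ℵ_ 1 := Cardinal.mk_Iio_toType_ord_lt a
  have h2 : #(Iio a) < Order.succ ℵ₀ := lt_of_lt_of_eq h Cardinal.succ_aleph0.symm
  exact Order.lt_succ_iff.1 h2

/-- Countable subsets of `ω₁` are bounded. -/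
lemma bdd_of_countable {S : Set (Cardinal.aleph.{u} 1).ord.ToType} (hS : S.Countable) :
    ∃ a, ∀ ξ ∈ S, ξ < a := by
  by_contra h
  push Not at h
  have hle : #(Cardinal.aleph.{u} 1).ord.ToType ≤ ℵ₀ := by
    rw [← Cardinal.mk_univ]
    have h1 : (univ : Set (Cardinal.aleph.{u} 1).ord.ToType) = ⋃ ξ ∈ S, Iic ξ := by
      ext x
      simpa using h x
    rw [h1]
    apply Set.Countable.le_aleph0
    refine hS.biUnion fun ξ _ => ?_
    have h2 : (Iic ξ) = Iio ξ ∪ {ξ} := by
      ext x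
      simp [le_iff_lt_or_eq]
    rw [h2]
    exact Set.Countable.union (countable_Iio_om ξ) (Set.countable_singleton ξ)
  rw [Cardinal.mk_ord_toType] at hle
  exact absurd hle (not_le.2 Cardinal.aleph0_lt_aleph_one)

/-- The criterion. -/
theorem strongSC_of_controlled (D : Set (X →L[ℝ] ℝ)) (hD : #D ≤ ℵ_ 1) (h : Controlled D) :
    StrongSC.{u, v} X := by
  classical
  -- enumeration along `ω₁`
  have hD' : #D ≤ #(Cardinal.aleph.{u} 1).ord.ToType := by
    rw [Cardinal.mk_ord_toType]; exact hD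
  obtain ⟨e⟩ := hD'
  let w : (Cardinal.aleph.{u} 1).ord.ToType → (X →L[ℝ] ℝ) := fun a =>
    if h : ∃ d : D, e d = a then (h.choose : X →L[ℝ] ℝ) else 0
  have hw : ∀ d : D, w (e d) = d := by
    intro d
    have h1 : ∃ d' : D, e d' = e d := ⟨d, rfl⟩
    have h2 : w (e d) = (h1.choose : X →L[ℝ] ℝ) := dif_pos h1
    rw [h2, e.injective h1.choose_spec]
  let lift : (X →L[ℝ] ℝ) → (WeakSpace ℝ X → ℝ) := fun f x => f ((toWeakSpace ℝ X).symm x)
  have hcont : ∀ f : X →L[ℝ] ℝ, Continuous (lift f) := fun f =>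
    WeakBilin.eval_continuous (topDualPairing ℝ X).flip f
  obtain ⟨ψ, hψ1, hψ2⟩ := lex_selector.{u, u, v} (E := WeakSpace ℝ X)
    (ι := (Cardinal.aleph.{u} 1).ord.ToType) countable_Iio_om (range lift)
    (by rintro _ ⟨f, rfl⟩; exact hcont f)
    (by
      rintro _ ⟨f, rfl⟩ _ ⟨g, rfl⟩ n
      refine ⟨f + (n : ℝ) • g, ?_⟩
      funext x
      simp [lift])
    (fun a => lift (w a)) (fun a => ⟨w a, rfl⟩)
    (by
      rintro _ ⟨f, rfl⟩
      obtain ⟨C, hCD, hCc, hC⟩ := h f
      have h1 : ((fun d : D => e d) '' {d : D | (d : X →L[ℝ] ℝ) ∈ C}).Countable := by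
        apply Set.Countable.image
        exact hCc.preimage Subtype.val_injective
      obtain ⟨a, ha⟩ := bdd_of_countable h1
      refine ⟨a, fun x y hxy => ?_⟩
      have h2 : f ((toWeakSpace ℝ X).symm x - (toWeakSpace ℝ X).symm y) = 0 := by
        apply hC
        intro c hc
        have h3 := hxy (e ⟨c, hCD hc⟩) (ha _ ⟨⟨c, hCD hc⟩, hc, rfl⟩)
        have h4 : w (e ⟨c, hCD hc⟩) = c := hw _
        simp only [h4] at h3
        rw [map_sub, sub_eq_zero]
        exact h3
      rw [map_sub, sub_eq_zero] at h2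
      exact h2)
    0
  refine ⟨fun C => (toWeakSpace ℝ X).symm (ψ ((toWeakSpace ℝ X) '' C)), ?_, ?_⟩
  · intro C hne hC
    obtain ⟨y, hy, hy2⟩ := hψ1 ((toWeakSpace ℝ X) '' C) (hne.image _) hC
    change (toWeakSpace ℝ X).symm (ψ ((toWeakSpace ℝ X) '' C)) ∈ C
    rw [← hy2, LinearEquiv.symm_apply_apply]
    exact hy
  · intro Ω _ F hF hmeas x'
    refine hψ2 Ω (fun ω => (toWeakSpace ℝ X) '' F ω) (fun ω => ⟨(hF ω).1.image _, (hF ω).2⟩) ?_
      (lift x') ⟨x', rfl⟩
    rintro _ ⟨f, rfl⟩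
    apply measurable_of_Ioi
    intro a
    have h1 : (fun ω => sSup (lift f '' ((toWeakSpace ℝ X) '' F ω))) ⁻¹' Ioi a =
        {ω | ∃ x ∈ F ω, a < f x} := by
      ext ω
      have hne : (lift f '' ((toWeakSpace ℝ X) '' F ω)).Nonempty := ((hF ω).1.image _).image _
      have hb : BddAbove (lift f '' ((toWeakSpace ℝ X) '' F ω)) :=
        ((hF ω).2.image (hcont f)).bddAbove
      simp only [mem_preimage, mem_Ioi, mem_ofPred_eq, lt_csSup_iff hb hne]
      constructor
      · rintro ⟨_, ⟨_, ⟨x, hx, rfl⟩, rfl⟩, hlt⟩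
        exact ⟨x, hx, by simpa [lift] using hlt⟩
      · rintro ⟨x, hx, hlt⟩
        exact ⟨_, ⟨_, ⟨x, hx, rfl⟩, rfl⟩, by simpa [lift] using hlt⟩
    rw [h1]
    exact hmeas f a

/-- A norm-dense subset of the dual is controlling. -/
theorem controlled_of_dense (D : Set (X →L[ℝ] ℝ)) (hD : Dense D) : Controlled D := by
  intro f
  have h1 : ∀ n : ℕ, ∃ d ∈ D, ‖f - d‖ < 1 / ((n : ℝ) + 1) := by
    intro n
    obtain ⟨d, hd, hdn⟩ := Metric.mem_closure_iff.1 (hD f) (1 / ((n : ℝ) + 1)) (by positivity)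
    rw [dist_eq_norm] at hdn
    exact ⟨d, hd, hdn⟩
  choose d hd hdn using h1
  refine ⟨range d, ?_, countable_range d, ?_⟩
  · rintro _ ⟨n, rfl⟩
    exact hd n
  · intro x hx
    by_contra hne
    have hpos : 0 < |f x| := abs_pos.2 hne
    have h2 : ∀ n : ℕ, |f x| ≤ 1 / ((n : ℝ) + 1) * ‖x‖ := by
      intro n
      have h3 : d n x = 0 := hx _ ⟨n, rfl⟩
      have h4 : f x = (f - d n) x := by
        rw [sub_apply, h3, sub_zero]
      rw [h4, ← Real.norm_eq_abs]
      exact ((f - d n).le_opNorm x).trans (mul_le_mul_of_nonneg_right (hdn n).le (norm_nonneg x))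
    obtain ⟨n, hn⟩ := exists_nat_gt (‖x‖ / |f x|)
    rw [div_lt_iff₀ hpos] at hn
    have h5 := h2 n
    have hn1 : (0 : ℝ) < (n : ℝ) + 1 := by positivity
    rw [div_mul_eq_mul_div, le_div_iff₀ hn1] at h5
    nlinarith

variable (X) in
/-- Corson's property (C): every family of closed convex sets with empty intersection has a
countable subfamily with empty intersection. -/
def PropertyC : Prop :=
  ∀ 𝒞 : Set (Set X), (∀ C ∈ 𝒞, IsClosed C ∧ Convex ℝ C) → ⋂₀ 𝒞 = ∅ →
    ∃ 𝒟 ⊆ 𝒞, 𝒟.Countable ∧ ⋂₀ 𝒟 = ∅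

/-- With property (C) every separating family is controlling. -/
theorem controlled_of_propertyC (hC : PropertyC X) (D : Set (X →L[ℝ] ℝ))
    (hD : ∀ x : X, (∀ c ∈ D, c x = 0) → x = 0) : Controlled D := by
  classical
  intro f
  let H : (X →L[ℝ] ℝ) → Set X := fun c => {x | c x = 0 ∧ f x = 1}
  have hcl : ∀ c, IsClosed (H c) := fun c =>
    (isClosed_eq c.continuous continuous_const).inter (isClosed_eq f.continuous continuous_const)
  have hcv : ∀ c, Convex ℝ (H c) := by
    intro c x hx y hy a b ha hb hab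
    refine ⟨?_, ?_⟩
    · rw [map_add, map_smul, map_smul, hx.1, hy.1]
      simp
    · rw [map_add, map_smul, map_smul, hx.2, hy.2]
      simpa using hab
  have hf0 : ∀ 𝒟 : Set (X →L[ℝ] ℝ), ⋂₀ (H '' 𝒟) = ∅ → 𝒟.Nonempty →
      ∀ x, (∀ c ∈ 𝒟, c x = 0) → f x = 0 := by
    intro 𝒟 h1 _ x hx
    by_contra hne
    have h2 : (f x)⁻¹ • x ∈ ⋂₀ (H '' 𝒟) := by
      rintro _ ⟨c, hc, rfl⟩
      refine ⟨?_, ?_⟩
      · rw [map_smul, hx c hc, smul_zero]
      · rw [map_smul, smul_eq_mul, inv_mul_cancel₀ hne]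
    rw [h1] at h2
    exact h2
  by_cases hDe : D.Nonempty
  · have h0 : ⋂₀ (H '' D) = ∅ := by
      rw [eq_empty_iff_forall_notMem]
      intro x hx
      have h1 : ∀ c ∈ D, c x = 0 := fun c hc => (hx _ ⟨c, hc, rfl⟩).1
      obtain ⟨c, hc⟩ := hDe
      have h2 : f x = 1 := (hx _ ⟨c, hc, rfl⟩).2
      rw [hD x h1, map_zero] at h2
      exact zero_ne_one h2
    obtain ⟨𝒟, h1, h2, h3⟩ := hC (H '' D) (by
      rintro _ ⟨c, _, rfl⟩
      exact ⟨hcl c, hcv c⟩) h0
    obtain ⟨𝒟', h4, h5⟩ := Set.subset_image_iff.1 h1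
    -- a countable choice of preimages
    have h6 : ∀ S : 𝒟, ∃ c ∈ D, H c = S := fun S => h1 S.2
    choose g hg1 hg2 using h6
    have hcount : Countable 𝒟 := h2.to_subtype
    refine ⟨range g, ?_, countable_range g, ?_⟩
    · rintro _ ⟨S, rfl⟩
      exact hg1 S
    · have h7 : H '' range g = 𝒟 := by
        ext S
        constructor
        · rintro ⟨_, ⟨T, rfl⟩, rfl⟩
          rw [hg2 T]
          exact T.2
        · intro hS
          exact ⟨g ⟨S, hS⟩, ⟨⟨S, hS⟩, rfl⟩, hg2 ⟨S, hS⟩⟩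
      rcases (range g).eq_empty_or_nonempty with h8 | h8
      · exfalso
        rw [h8, image_empty] at h7
        rw [← h7, sInter_empty] at h3
        exact (univ_nonempty (α := X)).ne_empty h3
      · exact hf0 (range g) (by rw [h7]; exact h3) h8
  · rw [not_nonempty_iff_eq_empty] at hDe
    refine ⟨∅, empty_subset _, countable_empty, fun x _ => ?_⟩
    rw [hD x (by rw [hDe]; simp), map_zero]

/-- A separating family of functionals. -/
theorem exists_separating (κ : Cardinal.{u}) (S : Set X) (hS : Dense S) (hκ : #S ≤ κ) :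
    ∃ D : Set (X →L[ℝ] ℝ), #D ≤ κ ∧ ∀ x : X, (∀ c ∈ D, c x = 0) → x = 0 := by
  have h1 : ∀ s : X, ∃ g : X →L[ℝ] ℝ, ‖g‖ ≤ 1 ∧ g s = ‖s‖ := fun s =>
    exists_dual_vector'' ℝ s
  choose g hg1 hg2 using h1
  refine ⟨g '' S, (Cardinal.mk_image_le).trans hκ, fun x hx => ?_⟩
  by_contra hne
  have hpos : 0 < ‖x‖ := norm_pos_iff.2 hne
  obtain ⟨s, hs, hsx⟩ := Metric.mem_closure_iff.1 (hS x) (‖x‖ / 3) (by positivity)
  rw [dist_eq_norm] at hsx
  have h2 : g s x = 0 := hx _ ⟨s, hs, rfl⟩
  have h3 : ‖s‖ ≤ ‖x - s‖ := by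
    have h4 : g s (s - x) = ‖s‖ := by
      rw [map_sub, h2, sub_zero, hg2]
    have h5 : |g s (s - x)| ≤ 1 * ‖s - x‖ := by
      rw [← Real.norm_eq_abs]
      exact ((g s).le_opNorm _).trans (mul_le_mul_of_nonneg_right (hg1 s) (norm_nonneg _))
    rw [h4, one_mul, abs_of_nonneg (norm_nonneg _), norm_sub_rev] at h5
    exact h5
  have h6 : ‖x‖ ≤ ‖x - s‖ + ‖s‖ := by
    have := norm_add_le (x - s) s
    rwa [sub_add_cancel] at this
  linarith

end FremlinSC49
end
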