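import Pool.Agent.Lib.FremlinSC40.Main
import Pool.Agent.Lib.MP_302921_gt.Defs

open Cardinal Set

namespace FremlinSC49

open FremlinSC40 Pool.Agent.Lib.MP_302921_gt

theorem two_pow_of_diamond (h : Diamond) : (2 : Cardinal.{0}) ^ ℵ₀ ≤ ℵ_ 1 := by
  obtain ⟨A, hA⟩ := h
  have hinf : Infinite Om := by
    rw [← Cardinal.aleph0_le_mk_iff, Cardinal.mk_ord_toType]
    exact Cardinal.aleph0_le_aleph 1
  let f : ℕ → Om := Infinite.natEmbedding Om
  have hf : Function.Injective f := (Infinite.natEmbedding Om).injective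
  -- a bound for the range of f
  have hb : ∃ b : Om, ∀ n, f n < b := by
    by_contra hcon
    push Not at hcon
    apply om_uncountable
    have : (Set.univ : Set Om) ⊆ ⋃ n, Set.Iic (f n) := by
      intro b _
      obtain ⟨n, hn⟩ := hcon b
      exact Set.mem_iUnion.2 ⟨n, hn⟩
    refine Set.Countable.mono this (Set.countable_iUnion fun n => ?_)
    rw [← Set.Iio_union_right]
    exact (om_countable_Iio _).union (Set.countable_singleton _)
  obtain ⟨b, hb⟩ := hb
  have hC : Pool.Agent.Lib.MP_302921_gt.IsClub (Set.Ioi b) := by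
    refine ⟨fun a => ?_, fun a ⟨c, hc⟩ h2 => ?_⟩
    · have hnm : ∃ c : Om, max a b < c := by
        by_contra hcon
        push Not at hcon
        apply om_uncountable
        have : (Set.univ : Set Om) ⊆ Set.Iic (max a b) := fun c _ => hcon c
        refine Set.Countable.mono this ?_
        rw [← Set.Iio_union_right]
        exact (om_countable_Iio _).union (Set.countable_singleton _)
      obtain ⟨c, hc⟩ := hnm
      exact ⟨c, lt_of_le_of_lt (le_max_right _ _) hc, lt_of_le_of_lt (le_max_left _ _) hc⟩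
    · obtain ⟨d, hd, _, hda⟩ := h2 c hc
      exact lt_trans hd hda
  have key : ∀ s : Set ℕ, ∃ a, b < a ∧ f '' s = A a := by
    intro s
    obtain ⟨a, ha, h3⟩ := hA (f '' s) (Set.Ioi b) hC
    refine ⟨a, ha, ?_⟩
    rw [← h3]
    ext x
    constructor
    · rintro ⟨n, hn, rfl⟩
      exact ⟨⟨n, hn, rfl⟩, lt_trans (hb n) ha⟩
    · exact fun hx => hx.1
  choose g hg1 hg2 using key
  have hgi : Function.Injective g := by
    intro s t hst
    have : f '' s = f '' t := by rw [hg2 s, hg2 t, hst]
    exact hf.image_injective this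
  have := Cardinal.mk_le_of_injective hgi
  rw [Cardinal.mk_ord_toType] at this
  calc (2 : Cardinal.{0}) ^ ℵ₀ = #(Set ℕ) := by rw [Cardinal.mk_set, Cardinal.mk_nat]
    _ ≤ ℵ_ 1 := this

theorem level_le_of_diamond (h : Diamond) (a : Om) :
    #((Set.univ : Set (Set.Iio a → Bool))) ≤ ℵ_ 1 := by
  rw [Cardinal.mk_univ]
  have h1 : #(Set.Iio a) ≤ ℵ₀ := by
    exact Cardinal.le_aleph0_iff_set_countable.2 (om_countable_Iio a)
  calc #(Set.Iio a → Bool) = 2 ^ #(Set.Iio a) := by simp
    _ ≤ 2 ^ ℵ₀ := Cardinal.power_le_power_left two_ne_zero h1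
    _ ≤ ℵ_ 1 := two_pow_of_diamond h

end FremlinSC49
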