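import Mathlib

/-!
# Functionals on `C(K)` are dominated by regular measures
-/

set_option autoImplicit false

open Set MeasureTheory Filter Topology
open scoped NNReal CompactlySupported

namespace FremlinSC49

section

variable {K : Type*} [TopologicalSpace K] [CompactSpace K]

/-- The set over which the supremum is taken. -/
def varSet (f : C(K, ℝ) →L[ℝ] ℝ) (y : K → ℝ) : Set ℝ :=
  {r | ∃ x : C(K, ℝ), (∀ t, |x t| ≤ y t) ∧ r = f x}

/-- The variation. -/
noncomputable def vari (f : C(K, ℝ) →L[ℝ] ℝ) (y : K → ℝ) : ℝ := sSup (varSet f y)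

lemma norm_le_of_pointwise {x : C(K, ℝ)} {c : ℝ} (hc : 0 ≤ c) (h : ∀ t, |x t| ≤ c) :
    ‖x‖ ≤ c := (ContinuousMap.norm_le x hc).2 fun t => h t

variable (f : C(K, ℝ) →L[ℝ] ℝ)

lemma varSet_bdd (y : C(K, ℝ)) : BddAbove (varSet f y) := by
  refine ⟨‖f‖ * ‖y‖, ?_⟩
  rintro _ ⟨x, hx, rfl⟩
  have h1 : ‖x‖ ≤ ‖y‖ := norm_le_of_pointwise (norm_nonneg _) fun t =>
    (hx t).trans ((le_abs_self _).trans (y.norm_coe_le_norm t))
  exact (le_abs_self _).trans ((f.le_opNorm x).trans
    (mul_le_mul_of_nonneg_left h1 (norm_nonneg _)))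

lemma varSet_zero_mem {y : K → ℝ} (hy : ∀ t, 0 ≤ y t) : (0 : ℝ) ∈ varSet f y :=
  ⟨0, fun t => by simpa using hy t, by simp⟩

lemma vari_nonneg {y : C(K, ℝ)} (hy : ∀ t, 0 ≤ y t) : 0 ≤ vari f y :=
  le_csSup (varSet_bdd f y) (varSet_zero_mem f hy)

lemma le_vari {y x : C(K, ℝ)} (h : ∀ t, |x t| ≤ y t) : f x ≤ vari f y :=
  le_csSup (varSet_bdd f y) ⟨x, h, rfl⟩

lemma vari_add {y z : C(K, ℝ)} (hy : ∀ t, 0 ≤ y t) (hz : ∀ t, 0 ≤ z t) :
    vari f (y + z : C(K, ℝ)) = vari f y + vari f z := by
  apply le_antisymm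
  · apply csSup_le ⟨0, varSet_zero_mem f fun t => by simpa using add_nonneg (hy t) (hz t)⟩
    rintro _ ⟨x, hx, rfl⟩
    let x1 : C(K, ℝ) := (x ⊓ y) ⊔ (-y)
    have h1 : ∀ t, x1 t = max (min (x t) (y t)) (- y t) := fun t => rfl
    have h2 : x = x1 + (x - x1) := by abel
    have e1 : ∀ t, |x1 t| ≤ y t := by
      intro t
      rw [h1, abs_le]
      constructor
      · exact le_max_right _ _
      · exact max_le (min_le_right _ _) (by linarith [hy t])
    have e2 : ∀ t, |(x - x1) t| ≤ z t := by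
      intro t
      have e3 : |x t| ≤ y t + z t := hx t
      rw [abs_le] at e3
      rw [ContinuousMap.sub_apply, h1, abs_le]
      have := hy t
      have := hz t
      rcases le_total (x t) (y t) with h | h
      · rw [min_eq_left h]
        rcases le_total (x t) (- y t) with h' | h'
        · rw [max_eq_right h']; constructor <;> linarith [e3.1, e3.2]
        · rw [max_eq_left h']; constructor <;> linarith [e3.1, e3.2]
      · rw [min_eq_right h, max_eq_left (by linarith)]
        constructor <;> linarith [e3.1, e3.2]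
    rw [h2, map_add]
    exact add_le_add (le_vari f e1) (le_vari f e2)
  · rw [← le_sub_iff_add_le]
    apply csSup_le ⟨0, varSet_zero_mem f hy⟩
    rintro _ ⟨x, hx, rfl⟩
    rw [le_sub_comm]
    apply csSup_le ⟨0, varSet_zero_mem f hz⟩
    rintro _ ⟨x', hx', rfl⟩
    rw [le_sub_iff_add_le, ← map_add]
    apply le_vari
    intro t
    rw [ContinuousMap.add_apply, ContinuousMap.add_apply, add_comm (y t)]
    exact (abs_add_le _ _).trans (add_le_add (hx' t) (hx t))

lemma vari_smul {y : C(K, ℝ)} (hy : ∀ t, 0 ≤ y t) (c : ℝ) (hc : 0 ≤ c) :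
    vari f (c • y : C(K, ℝ)) = c * vari f y := by
  rcases hc.eq_or_lt with rfl | hc
  · rw [zero_smul, zero_mul]
    apply le_antisymm
    · apply csSup_le ⟨0, varSet_zero_mem f fun t => by simp⟩
      rintro _ ⟨x, hx, rfl⟩
      have h1 : x = 0 := by
        ext t
        have := hx t
        simpa using this
      rw [h1, map_zero]
    · exact vari_nonneg f fun t => by simp
  · apply le_antisymm
    · apply csSup_le ⟨0, varSet_zero_mem f fun t => by
        simpa using mul_nonneg hc.le (hy t)⟩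
      rintro _ ⟨x, hx, rfl⟩
      have h1 : f (c⁻¹ • x) ≤ vari f y := by
        apply le_vari
        intro t
        have h2 : |x t| ≤ c * y t := hx t
        rw [ContinuousMap.smul_apply, smul_eq_mul, abs_mul, abs_of_pos (inv_pos.2 hc),
          inv_mul_le_iff₀ hc]
        exact h2
      rw [map_smul, smul_eq_mul, inv_mul_le_iff₀ hc] at h1
      exact h1
    · rw [← le_div_iff₀' hc]
      apply csSup_le ⟨0, varSet_zero_mem f hy⟩
      rintro _ ⟨x, hx, rfl⟩
      rw [le_div_iff₀' hc, ← smul_eq_mul, ← map_smul]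
      apply le_vari
      intro t
      rw [ContinuousMap.smul_apply, ContinuousMap.smul_apply, smul_eq_mul, smul_eq_mul, abs_mul,
        abs_of_pos hc]
      exact mul_le_mul_of_nonneg_left (hx t) hc.le

end

/-- Every functional on `C(K)` is dominated by a finite regular measure. -/
theorem exists_dominating {K : Type*} [TopologicalSpace K] [CompactSpace K] [T2Space K]
    [MeasurableSpace K] [BorelSpace K] (f : C(K, ℝ) →L[ℝ] ℝ) :
    ∃ ν : Measure K, IsFiniteMeasure ν ∧ ν.Regular ∧
      ∀ x : C(K, ℝ), |f x| ≤ ∫ t, |x t| ∂ν := by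
  let toC : C_c(K, ℝ≥0) → C(K, ℝ) := fun y =>
    ⟨fun t => (y t : ℝ), NNReal.continuous_coe.comp y.continuous⟩
  have htoC : ∀ y t, toC y t = (y t : ℝ) := fun y t => rfl
  have hnn : ∀ y t, 0 ≤ toC y t := fun y t => (y t).2
  let Λ : C_c(K, ℝ≥0) →ₗ[ℝ≥0] ℝ≥0 :=
    { toFun := fun y => ⟨vari f (toC y), vari_nonneg f (hnn y)⟩
      map_add' := by
        intro y z
        apply NNReal.eq
        change vari f (toC (y + z)) = vari f (toC y) + vari f (toC z)
        rw [← vari_add f (hnn y) (hnn z)]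
        rfl
      map_smul' := by
        intro c y
        apply NNReal.eq
        change vari f (toC (c • y)) = c * vari f (toC y)
        rw [← vari_smul f (hnn y) c c.2]
        rfl }
  have hΛ : ∀ y, ((Λ y : ℝ≥0) : ℝ) = vari f (toC y) := fun y => rfl
  refine ⟨NNRealRMK.rieszMeasure Λ, ?_, inferInstance, ?_⟩
  · let o : C_c(K, ℝ≥0) := ⟨1, HasCompactSupport.of_compactSpace 1⟩
    constructor
    have h1 := NNRealRMK.lintegral_rieszMeasure Λ o
    have h2 : ∀ x, (o x : ENNReal) = 1 := fun x => rfl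
    simp only [h2, lintegral_one] at h1
    rw [h1]
    exact ENNReal.coe_lt_top
  · intro x
    let y : C_c(K, ℝ≥0) := ⟨⟨fun t => ⟨|x t|, abs_nonneg _⟩, by fun_prop⟩,
      HasCompactSupport.of_compactSpace _⟩
    have h1 := NNRealRMK.integral_rieszMeasure Λ y
    have h2 : ∀ t, ((y t : ℝ≥0) : ℝ) = |x t| := fun t => rfl
    simp only [h2] at h1
    rw [h1, hΛ, abs_le]
    constructor
    · have h3 : f (-x) ≤ vari f (toC y) := by
        apply le_vari
        intro t
        rw [htoC, h2, ContinuousMap.neg_apply, abs_neg]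
      rw [map_neg] at h3
      linarith
    · apply le_vari
      intro t
      rw [htoC, h2]

end FremlinSC49
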