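import Pool.Agent.Lib.FremlinSC49.Reach

/-!
# Permanence properties of reachability
-/

set_option autoImplicit false

open Set Cardinal MeasureTheory Filter Topology

namespace FremlinSC49

open FremlinSC40 (Om)

universe u v w

variable {X : Type u} [NormedAddCommGroup X] [NormedSpace ℝ X]

lemma Reach.trans {D D' : Set (X →L[ℝ] ℝ)} (hD : ∀ d ∈ D', Reach D d) {f : X →L[ℝ] ℝ}
    (h : Reach D' f) : Reach D f := by
  induction h with
  | base f hf => exact hD f hf
  | ctrl g f _ hker ih => exact Reach.ctrl g f ih hker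
  | ulam Φ hΦ _ ih => exact Reach.ulam Φ hΦ ih

lemma Reach.mono {D D' : Set (X →L[ℝ] ℝ)} (hD : D ⊆ D') {f : X →L[ℝ] ℝ}
    (h : Reach D f) : Reach D' f := h.trans fun d hd => Reach.base d (hD hd)

lemma Reach.comp {Y : Type v} [NormedAddCommGroup Y] [NormedSpace ℝ Y] {D : Set (Y →L[ℝ] ℝ)}
    {f : Y →L[ℝ] ℝ} (h : Reach D f) (T : X →L[ℝ] Y) :
    Reach ((fun d : Y →L[ℝ] ℝ => d.comp T) '' D) (f.comp T) := by
  induction h with
  | base f hf => exact Reach.base _ ⟨f, hf, rfl⟩
  | ctrl g f _ hker ih =>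
    exact Reach.ctrl (fun n => (g n).comp T) _ ih fun x hx => hker (T x) fun n => hx n
  | ulam Φ hΦ _ ih =>
    exact Reach.ulam (fun A => (Φ A).comp T) (fun A B hAB x => hΦ A B hAB (T x)) ih

/-- Countable control. -/
lemma reach_of_countable {D : Set (X →L[ℝ] ℝ)} (h0 : Reach D 0) {C : Set (X →L[ℝ] ℝ)}
    (hC : C.Countable) (hCD : ∀ c ∈ C, Reach D c) {f : X →L[ℝ] ℝ}
    (h : ∀ x, (∀ c ∈ C, c x = 0) → f x = 0) : Reach D f := by
  rcases C.eq_empty_or_nonempty with rfl | hne
  · have hf : f = 0 := by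
      ext x
      exact h x (by simp)
    rw [hf]
    exact h0
  · obtain ⟨g, hg⟩ := hC.exists_eq_range hne
    subst hg
    exact Reach.ctrl g f (fun n => hCD _ ⟨n, rfl⟩) fun x hx => h x fun c ⟨n, hn⟩ => hn ▸ hx n

/-- The Ulam step for an arbitrary index set of cardinality at most `ℵ₁`. -/
lemma reach_of_phi {D : Set (X →L[ℝ] ℝ)} {I : Type w} (hI : #I ≤ ℵ_ 1)
    (Φ : Set I → (X →L[ℝ] ℝ))
    (hΦ : ∀ (A : ℕ → Set I) (B : Set I), (∀ ξ, ∀ᶠ n in atTop, (ξ ∈ A n ↔ ξ ∈ B)) →
        ∀ x, Tendsto (fun n => Φ (A n) x) atTop (𝓝 (Φ B x)))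
    (hc : ∀ A : Set I, A.Countable → Reach D (Φ A)) : Reach D (Φ univ) := by
  have hle : Cardinal.lift.{0} #I ≤ Cardinal.lift.{w} #Om := by
    rw [Cardinal.mk_ord_toType, Cardinal.lift_aleph, Cardinal.lift_uzero]
    simpa using hI
  obtain ⟨e⟩ := Cardinal.lift_mk_le'.1 hle
  have h1 := Reach.ulam (D := D) (fun B : Set Om => Φ (e ⁻¹' B))
    (fun A B hAB x => hΦ (fun n => e ⁻¹' A n) (e ⁻¹' B) (fun ξ => hAB (e ξ)) x)
    (fun A hA => hc _ (hA.preimage e.injective))
  rw [preimage_univ] at h1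
  exact h1

/-- The dual can be reached from `ℵ₁` functionals. -/
def Good (X : Type u) [NormedAddCommGroup X] [NormedSpace ℝ X] : Prop :=
  ∃ D : Set (X →L[ℝ] ℝ), #D ≤ ℵ_ 1 ∧ ∀ f, Reach D f

/-- subspaces -/
theorem good_of_embedding {Y : Type u} [NormedAddCommGroup Y] [NormedSpace ℝ Y]
    (h : Good Y) (T : X →L[ℝ] Y) (c : ℝ) (hc : 0 < c) (hT : ∀ x, c * ‖x‖ ≤ ‖T x‖) : Good X := by
  obtain ⟨D, hD, hr⟩ := h
  refine ⟨(fun d : Y →L[ℝ] ℝ => d.comp T) '' D, Cardinal.mk_image_le.trans hD, fun f => ?_⟩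
  -- extend `f`
  have hinj : Function.Injective T := by
    intro x y hxy
    have h1 := hT (x - y)
    rw [map_sub, hxy, sub_self, norm_zero] at h1
    have h2 : ‖x - y‖ ≤ 0 := by
      by_contra h3
      push Not at h3
      have := mul_pos hc h3
      linarith
    exact sub_eq_zero.1 (norm_le_zero_iff.1 h2)
  let S : Submodule ℝ Y := LinearMap.range T.toLinearMap
  let E : X ≃ₗ[ℝ] S := LinearEquiv.ofInjective T.toLinearMap hinj
  have hE : ∀ x, ((E x : S) : Y) = T x := fun x => rfl
  let g0 : S →ₗ[ℝ] ℝ := f.toLinearMap ∘ₗ E.symm.toLinearMap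
  have hg0 : ∀ s : S, ‖g0 s‖ ≤ (‖f‖ / c) * ‖s‖ := by
    intro s
    obtain ⟨x, rfl⟩ := E.surjective s
    have h1 : g0 (E x) = f x := by
      change f (E.symm (E x)) = f x
      rw [LinearEquiv.symm_apply_apply]
    rw [h1]
    have h2 : ‖f x‖ ≤ ‖f‖ * ‖x‖ := f.le_opNorm x
    have h3 : c * ‖x‖ ≤ ‖(E x : S)‖ := hT x
    have h4 : ‖x‖ ≤ ‖(E x : S)‖ / c := by
      rw [le_div_iff₀ hc]
      linarith
    calc ‖f x‖ ≤ ‖f‖ * ‖x‖ := h2
      _ ≤ ‖f‖ * (‖(E x : S)‖ / c) := mul_le_mul_of_nonneg_left h4 (norm_nonneg _)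
      _ = (‖f‖ / c) * ‖(E x : S)‖ := by ring
  let g1 : S →L[ℝ] ℝ := g0.mkContinuous (‖f‖ / c) hg0
  obtain ⟨g, hg, -⟩ := exists_extension_norm_eq S g1
  have h5 : f = g.comp T := by
    ext x
    have h6 := hg (E x)
    have h7 : g1 (E x) = f x := by
      change f (E.symm (E x)) = f x
      rw [LinearEquiv.symm_apply_apply]
    rw [h7] at h6
    exact h6.symm
  rw [h5]
  exact (hr g).comp T

/-- Unconditional decompositions. -/
theorem reach_uncond [CompleteSpace X] {D : Set (X →L[ℝ] ℝ)} {I : Type w} (hI : #I ≤ ℵ_ 1)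
    (h0 : Reach D 0) (T : I → (X →L[ℝ] X)) (f : X →L[ℝ] ℝ)
    (hsum : ∀ x, Summable fun i => |f (T i x)|) (hf : ∀ x, f x = ∑' i, f (T i x))
    (hr : ∀ i, Reach D (f.comp (T i))) : Reach D f := by
  classical
  -- the partial functionals
  have hs : ∀ (A : Set I) (x : X), Summable fun i : I => A.indicator (fun i => f (T i x)) i :=
    fun A x => ((hsum x).of_abs).indicator A
  -- boundedness
  have hbound : ∀ A : Set I, ∃ C : ℝ, ∀ x, |∑' i, A.indicator (fun i => f (T i x)) i| ≤ C * ‖x‖ := by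
    intro A
    let g : Finset I → (X →L[ℝ] ℝ) := fun s => ∑ i ∈ s, (if i ∈ A then f.comp (T i) else 0)
    have hg : ∀ s x, g s x = ∑ i ∈ s, A.indicator (fun i => f (T i x)) i := by
      intro s x
      simp only [g, ContinuousLinearMap.sum_apply]
      refine Finset.sum_congr rfl fun i _ => ?_
      by_cases hi : i ∈ A
      · simp [hi, indicator]
      · simp [hi, indicator]
    obtain ⟨C, hC⟩ := banach_steinhaus (g := g) (fun x => by
      refine ⟨∑' i, |f (T i x)|, fun s => ?_⟩
      rw [hg, Real.norm_eq_abs]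
      refine (Finset.abs_sum_le_sum_abs _ _).trans ?_
      refine le_trans (Finset.sum_le_sum fun i _ => ?_) ((hsum x).sum_le_tsum s fun i _ => abs_nonneg _)
      by_cases hi : i ∈ A
      · simp [hi, indicator]
      · simp [hi, indicator])
    refine ⟨C, fun x => ?_⟩
    have hlim : Tendsto (fun s => g s x) atTop (𝓝 (∑' i, A.indicator (fun i => f (T i x)) i)) := by
      simp only [hg]
      exact (hs A x).hasSum
    refine le_of_tendsto hlim.abs (Eventually.of_forall fun s => ?_)
    rw [← Real.norm_eq_abs]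
    exact ((g s).le_opNorm x).trans (mul_le_mul_of_nonneg_right (hC s) (norm_nonneg x))
  choose C hC using hbound
  let Φ : Set I → (X →L[ℝ] ℝ) := fun A =>
    LinearMap.mkContinuous
      { toFun := fun x => ∑' i, A.indicator (fun i => f (T i x)) i
        map_add' := by
          intro x y
          rw [← (hs A x).tsum_add (hs A y)]
          refine tsum_congr fun i => ?_
          by_cases hi : i ∈ A
          · simp [hi, indicator]
          · simp [hi, indicator]
        map_smul' := by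
          intro c x
          simp only [RingHom.id_apply, smul_eq_mul]
          rw [← tsum_mul_left]
          refine tsum_congr fun i => ?_
          by_cases hi : i ∈ A
          · simp [hi, indicator]
          · simp [hi, indicator] } (C A) (fun x => by
        rw [Real.norm_eq_abs]
        exact hC A x)
  have hΦ : ∀ A x, Φ A x = ∑' i, A.indicator (fun i => f (T i x)) i := fun A x => rfl
  have hΦu : Φ univ = f := by
    ext x
    rw [hΦ, hf x]
    refine tsum_congr fun i => ?_
    simp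
  rw [← hΦu]
  apply reach_of_phi hI Φ
  · intro A B hAB x
    simp only [hΦ]
    refine tendsto_tsum_of_dominated_convergence (hsum x) ?_ ?_
    · intro i
      refine tendsto_const_nhds.congr' ?_
      filter_upwards [hAB i] with n hn
      by_cases hi : i ∈ B
      · simp [hi, hn.2 hi, indicator]
      · have hi' : i ∉ A n := fun h => hi (hn.1 h)
        simp [hi, hi', indicator]
    · refine Eventually.of_forall fun n i => ?_
      rw [Real.norm_eq_abs]
      by_cases hi : i ∈ A n
      · simp [hi, indicator]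
      · simp [hi, indicator]
  · intro A hA
    refine reach_of_countable h0 (hA.image fun i => f.comp (T i)) ?_ ?_
    · rintro _ ⟨i, -, rfl⟩
      exact hr i
    · intro x hx
      rw [hΦ]
      have h8 : ∀ i, A.indicator (fun i => f (T i x)) i = 0 := by
        intro i
        by_cases hi : i ∈ A
        · have := hx _ ⟨i, hi, rfl⟩
          simpa [hi, indicator] using this
        · simp [hi, indicator]
      simp [h8]

end FremlinSC49
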