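import Pool.Agent.Lib.FremlinSC49.Perm
import Pool.Agent.Lib.FremlinSC49.Dom

/-!
# Spaces of continuous functions on products
-/

set_option autoImplicit false

open Set Cardinal MeasureTheory Filter Topology

namespace FremlinSC49

universe u

/-- There is a set `S` of at most `ℵ₁` points of `K` such that every functional on `C(K)` is
supported by the closure of a countable subset of `S`. -/
def PtControlled (K : Type u) [TopologicalSpace K] [CompactSpace K] : Prop :=
  ∃ S : Set K, #S ≤ ℵ_ 1 ∧ ∀ f : C(K, ℝ) →L[ℝ] ℝ, ∃ C ⊆ S, C.Countable ∧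
    ∀ x : C(K, ℝ), (∀ t ∈ C, x t = 0) → f x = 0

lemma card_finset_le {α : Type u} (h : #α ≤ ℵ_ 1) : #(Finset α) ≤ ℵ_ 1 := by
  rcases finite_or_infinite α with hf | hf
  · exact (Cardinal.lt_aleph0_of_finite (Finset α)).le.trans (Cardinal.aleph0_le_aleph 1)
  · rw [Cardinal.mk_finset_of_infinite]
    exact h

section

variable {I : Type u} {K : I → Type u}

/-- The points which are equal to `p` up to finitely many coordinates in `S`. -/
def finPts (S : ∀ i, Set (K i)) (p : ∀ i, K i) : Set (∀ i, K i) :=
  {q | (∀ i, q i ∈ S i ∨ q i = p i) ∧ {i | q i ≠ p i}.Finite}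

lemma card_finPts (hI : #I ≤ ℵ_ 1) (S : ∀ i, Set (K i)) (hS : ∀ i, #(S i) ≤ ℵ_ 1)
    (p : ∀ i, K i) : #(finPts S p) ≤ ℵ_ 1 := by
  classical
  let α := Σ i, S i
  have hα : #α ≤ ℵ_ 1 := by
    rw [Cardinal.mk_sigma]
    calc Cardinal.sum (fun i => #(S i)) ≤ Cardinal.sum (fun _ : I => (ℵ_ 1 : Cardinal.{u})) :=
          Cardinal.sum_le_sum _ _ hS
      _ = #I * ℵ_ 1 := Cardinal.sum_const' _ _
      _ ≤ ℵ_ 1 * ℵ_ 1 := mul_le_mul_left hI _
      _ = ℵ_ 1 := Cardinal.mul_eq_self (Cardinal.aleph0_le_aleph 1)
  let θ : Finset α → (∀ i, K i) := fun s i =>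
    if h : ∃ t : S i, (⟨i, t⟩ : α) ∈ s then (h.choose : K i) else p i
  have hsub : finPts S p ⊆ range θ := by
    rintro q ⟨hq1, hq2⟩
    have hmem : ∀ i ∈ hq2.toFinset, q i ∈ S i := by
      intro i hi
      rw [Set.Finite.mem_toFinset] at hi
      rcases hq1 i with h | h
      · exact h
      · exact absurd h hi
    let s : Finset α := hq2.toFinset.attach.image fun i => ⟨i.1, ⟨q i.1, hmem i.1 i.2⟩⟩
    have hs : ∀ (i : I) (t : S i), (⟨i, t⟩ : α) ∈ s → q i ≠ p i ∧ (t : K i) = q i := by
      intro i t h
      rw [Finset.mem_image] at h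
      obtain ⟨j, -, hj⟩ := h
      obtain ⟨j, hj'⟩ := j
      rw [Sigma.mk.injEq] at hj
      obtain ⟨e1, e2⟩ := hj
      dsimp only at e1
      subst e1
      have e3 := eq_of_heq e2
      rw [← e3]
      exact ⟨(Set.Finite.mem_toFinset _).1 hj', rfl⟩
    refine ⟨s, ?_⟩
    funext i
    by_cases h : q i = p i
    · have hno : ¬ ∃ t : S i, (⟨i, t⟩ : α) ∈ s := by
        rintro ⟨t, ht⟩
        exact (hs i t ht).1 h
      change (if h : ∃ t : S i, (⟨i, t⟩ : α) ∈ s then (h.choose : K i) else p i) = q i
      rw [dif_neg hno, h]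
    · have hi : i ∈ hq2.toFinset := (Set.Finite.mem_toFinset _).2 h
      have hyes : ∃ t : S i, (⟨i, t⟩ : α) ∈ s :=
        ⟨⟨q i, hmem i hi⟩, Finset.mem_image.2 ⟨⟨i, hi⟩, Finset.mem_attach _ _, rfl⟩⟩
      change (if h : ∃ t : S i, (⟨i, t⟩ : α) ∈ s then (h.choose : K i) else p i) = q i
      rw [dif_pos hyes]
      exact (hs i _ hyes.choose_spec).2
  calc #(finPts S p) ≤ #(range θ) := Cardinal.mk_le_mk_of_subset hsub
    _ ≤ #(Finset α) := Cardinal.mk_range_le
    _ ≤ ℵ_ 1 := card_finset_le hα

variable [∀ i, TopologicalSpace (K i)]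

open Classical in
/-- The retraction onto the coordinates in `A`. -/
noncomputable def retr (p : ∀ i, K i) (A : Set I) : C(∀ i, K i, ∀ i, K i) where
  toFun q i := if i ∈ A then q i else p i
  continuous_toFun := by
    refine continuous_pi fun i => ?_
    by_cases h : i ∈ A
    · simp only [h, if_true]
      exact continuous_apply i
    · simp only [h, if_false]
      exact continuous_const

lemma retr_mem (p : ∀ i, K i) {A : Set I} (q : ∀ i, K i) {i : I} (h : i ∈ A) :
    retr p A q i = q i := if_pos h

lemma retr_notMem (p : ∀ i, K i) {A : Set I} (q : ∀ i, K i) {i : I} (h : i ∉ A) :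
    retr p A q i = p i := if_neg h

variable [∀ i, CompactSpace (K i)] [∀ i, T2Space (K i)]

/-- **Products.** -/
theorem good_prod (hI : #I ≤ ℵ_ 1) (hK : ∀ i, PtControlled (K i)) : Good C(∀ i, K i, ℝ) := by
  classical
  by_cases hne : ∀ i, Nonempty (K i)
  swap
  · push Not at hne
    obtain ⟨i, hi⟩ := hne
    refine ⟨{0}, ?_, fun f => Reach.base f ?_⟩
    · rw [Cardinal.mk_singleton]
      exact Cardinal.one_le_aleph0.trans (Cardinal.aleph0_le_aleph 1)
    · rw [mem_singleton_iff]
      ext x
      have hx : x = 0 := by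
        ext q
        exact (hi.false (q i)).elim
      rw [hx, map_zero, map_zero]
  choose S hS hSc using hK
  let p : ∀ i, K i := fun i => (hne i).some
  let δ : (∀ i, K i) → (C(∀ i, K i, ℝ) →L[ℝ] ℝ) := fun q => ContinuousMap.evalCLM ℝ q
  have hδ : ∀ q x, δ q x = x q := fun q x => rfl
  refine ⟨δ '' finPts S p, Cardinal.mk_image_le.trans (card_finPts hI S hS p), fun f => ?_⟩
  set D := δ '' finPts S p with hD
  have hpD : δ p ∈ D := ⟨p, ⟨fun i => Or.inr rfl, by simp⟩, rfl⟩
  have h0 : Reach D 0 := Reach.ctrl (fun _ => δ p) 0 (fun _ => Reach.base _ hpD) fun x _ => rfl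
  let _ : MeasurableSpace (∀ i, K i) := borel _
  have _ : BorelSpace (∀ i, K i) := ⟨rfl⟩
  obtain ⟨ν, hν1, hν2, hν⟩ := exists_dominating f
  have hint : ∀ x : C(∀ i, K i, ℝ), Integrable (fun q => x q) ν := fun x =>
    BoundedContinuousFunction.integrable ν (BoundedContinuousFunction.mkOfCompact x)
  -- the marginals
  have hmarg : ∀ i, ∃ C : Set (K i), C ⊆ S i ∧ C.Countable ∧ ν {q | q i ∉ closure C} = 0 := by
    intro i
    let pr : C(∀ i, K i, K i) := ⟨fun q => q i, continuous_apply i⟩
    let g : C(K i, ℝ) →L[ℝ] ℝ := LinearMap.mkContinuous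
      { toFun := fun y => ∫ q : (∀ i, K i), y (q i) ∂ν
        map_add' := fun y z => integral_add (hint (y.comp pr)) (hint (z.comp pr))
        map_smul' := fun c y => integral_const_mul c _ } (ν.real univ) (fun y => by
        change ‖∫ q : (∀ i, K i), y (q i) ∂ν‖ ≤ ν.real univ * ‖y‖
        have h1 := norm_integral_le_of_norm_le_const (μ := ν) (f := fun q : ∀ i, K i => y (q i))
          (C := ‖y‖) (Eventually.of_forall fun q => y.norm_coe_le_norm _)
        rwa [mul_comm] at h1)
    obtain ⟨C, hC1, hC2, hC3⟩ := hSc i g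
    refine ⟨C, hC1, hC2, ?_⟩
    have hopen : IsOpen {q : ∀ i, K i | q i ∉ closure C} :=
      isClosed_closure.isOpen_compl.preimage (continuous_apply i)
    by_contra hpos
    obtain ⟨L, hLU, hL, hLpos⟩ := hopen.exists_lt_isCompact (μ := ν) (r := 0)
      (pos_iff_ne_zero.2 hpos)
    have hL' : IsCompact ((fun q : ∀ i, K i => q i) '' L) := hL.image (continuous_apply i)
    have hdisj : Disjoint (closure C) ((fun q : ∀ i, K i => q i) '' L) := by
      rw [Set.disjoint_left]
      rintro _ h1 ⟨q, hq, rfl⟩
      exact hLU hq h1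
    obtain ⟨y, hy0, hy1, hy⟩ := exists_continuous_zero_one_of_isClosed isClosed_closure
      hL'.isClosed hdisj
    have h2 : ∫ q : (∀ i, K i), y (q i) ∂ν = 0 := hC3 y fun t ht => hy0 (subset_closure ht)
    have h3 : (fun q : ∀ i, K i => y (q i)) =ᵐ[ν] 0 :=
      (integral_eq_zero_iff_of_nonneg (fun q : ∀ i, K i => (hy (q i)).1)
        (hint (y.comp pr))).1 h2
    have h4 : ν L = 0 := by
      rw [measure_eq_zero_iff_ae_notMem]
      filter_upwards [h3] with q hq hqL
      have h5 : y (q i) = 1 := hy1 ⟨q, hqL, rfl⟩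
      have h6 : y (q i) = 0 := hq
      rw [h5] at h6
      exact one_ne_zero h6
    exact hLpos.ne' h4
  choose C hCS hCc hCν using hmarg
  -- the functionals
  let Φ : Set I → (C(∀ i, K i, ℝ) →L[ℝ] ℝ) := fun A => LinearMap.mkContinuous
    { toFun := fun x => f (x.comp (retr p A))
      map_add' := fun x y => by rw [ContinuousMap.add_comp, map_add]
      map_smul' := fun c x => by
        rw [ContinuousMap.smul_comp, map_smul]
        rfl } ‖f‖ (fun x => by
      change ‖f (x.comp (retr p A))‖ ≤ ‖f‖ * ‖x‖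
      refine (f.le_opNorm _).trans (mul_le_mul_of_nonneg_left ?_ (norm_nonneg _))
      exact (ContinuousMap.norm_le _ (norm_nonneg _)).2 fun q => x.norm_coe_le_norm _)
  have hΦ : ∀ A x, Φ A x = f (x.comp (retr p A)) := fun A x => rfl
  have hΦu : Φ univ = f := by
    ext x
    rw [hΦ]
    congr 1
    ext q
    change x (retr p univ q) = x q
    congr 1
    funext i
    exact retr_mem p q (mem_univ i)
  rw [← hΦu]
  apply reach_of_phi hI Φ
  · intro A B hAB x
    rw [← tendsto_sub_nhds_zero_iff]
    have hpt : ∀ q, Tendsto (fun n => |x (retr p (A n) q) - x (retr p B q)|) atTop (𝓝 0) := by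
      intro q
      have h1 : Tendsto (fun n => retr p (A n) q) atTop (𝓝 (retr p B q)) := by
        rw [tendsto_pi_nhds]
        intro i
        refine tendsto_const_nhds.congr' ?_
        filter_upwards [hAB i] with n hn
        by_cases hi : i ∈ B
        · rw [retr_mem p q hi, retr_mem p q (hn.2 hi)]
        · rw [retr_notMem p q hi, retr_notMem p q fun h => hi (hn.1 h)]
      have h2 : Tendsto (fun n => x (retr p (A n) q) - x (retr p B q)) atTop (𝓝 0) := by
        rw [tendsto_sub_nhds_zero_iff]
        exact (x.continuous.tendsto _).comp h1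
      simpa using h2.abs
    have hint2 : Tendsto (fun n => ∫ q, |x (retr p (A n) q) - x (retr p B q)| ∂ν) atTop
        (𝓝 (∫ _, (0 : ℝ) ∂ν)) := by
      refine tendsto_integral_of_dominated_convergence (fun _ => 2 * ‖x‖) ?_
        (integrable_const _) ?_ (Eventually.of_forall hpt)
      · intro n
        have hc : Continuous fun q : ∀ i, K i => |x (retr p (A n) q) - x (retr p B q)| := by
          fun_prop
        exact hc.aestronglyMeasurable_of_compactSpace
      · intro n
        refine Eventually.of_forall fun q => ?_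
        rw [Real.norm_eq_abs, abs_abs]
        have e1 := x.norm_coe_le_norm (retr p (A n) q)
        have e2 := x.norm_coe_le_norm (retr p B q)
        rw [Real.norm_eq_abs] at e1 e2
        calc |x (retr p (A n) q) - x (retr p B q)|
            ≤ |x (retr p (A n) q)| + |x (retr p B q)| := abs_sub _ _
          _ ≤ 2 * ‖x‖ := by linarith
    rw [integral_zero] at hint2
    refine squeeze_zero_norm (fun n => ?_) hint2
    rw [hΦ, hΦ, ← map_sub, Real.norm_eq_abs]
    exact hν _
  · intro A hA
    have hAc : Countable A := hA.to_subtype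
    have hen : ∀ i, ∃ c : ℕ → K i, c 0 = p i ∧ C i ⊆ range c ∧ ∀ n, c n ∈ S i ∨ c n = p i := by
      intro i
      obtain ⟨e, he⟩ := ((hCc i).insert (p i)).exists_eq_range ⟨p i, mem_insert _ _⟩
      refine ⟨fun n => Nat.casesOn n (p i) e, rfl, ?_, ?_⟩
      · intro t ht
        have h1 : t ∈ range e := he ▸ mem_insert_of_mem _ ht
        obtain ⟨n, hn⟩ := h1
        exact ⟨n + 1, hn⟩
      · intro n
        cases n with
        | zero => exact Or.inr rfl
        | succ n =>
          have h1 : e n ∈ insert (p i) (C i) := he ▸ mem_range_self n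
          rcases h1 with h1 | h1
          · exact Or.inr h1
          · exact Or.inl (hCS i h1)
    choose c hc0 hcC hcS using hen
    let Q : (A →₀ ℕ) → (∀ i, K i) := fun τ i => if h : i ∈ A then c i (τ ⟨i, h⟩) else p i
    have hQ1 : ∀ τ (i : I) (h : i ∈ A), Q τ i = c i (τ ⟨i, h⟩) := fun τ i h => dif_pos h
    have hQ2 : ∀ τ (i : I) (h : i ∉ A), Q τ i = p i := fun τ i h => dif_neg h
    refine reach_of_countable h0 (C := range fun τ => δ (Q τ)) (countable_range _) ?_ ?_
    · rintro _ ⟨τ, rfl⟩
      refine Reach.base _ ⟨Q τ, ⟨fun i => ?_, ?_⟩, rfl⟩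
      · by_cases h : i ∈ A
        · rw [hQ1 τ i h]
          exact hcS i _
        · exact Or.inr (hQ2 τ i h)
      · refine (τ.support.finite_toSet.image fun i : A => (i : I)).subset ?_
        intro i hi
        have hi' : Q τ i ≠ p i := hi
        by_cases h : i ∈ A
        · refine ⟨⟨i, h⟩, ?_, rfl⟩
          rw [Finset.mem_coe, Finsupp.mem_support_iff]
          intro h1
          rw [hQ1 τ i h, h1, hc0] at hi'
          exact hi' rfl
        · exact absurd (hQ2 τ i h) hi'
    · intro x hx
      have hx' : ∀ τ, x (Q τ) = 0 := fun τ => hx _ ⟨τ, rfl⟩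
      have hae : ∀ᵐ q ∂ν, ∀ i : A, q i ∈ closure (C i) := by
        rw [ae_all_iff]
        intro i
        filter_upwards [measure_eq_zero_iff_ae_notMem.1 (hCν i)] with q hq
        by_contra h
        exact hq h
      have hz : ∀ᵐ q ∂ν, |(x.comp (retr p A)) q| = 0 := by
        filter_upwards [hae] with q hq
        have hcl : retr p A q ∈ closure (range Q) := by
          rw [mem_closure_iff]
          intro U hU hqU
          obtain ⟨F, uu, hu1, hu2⟩ := isOpen_pi_iff.1 hU _ hqU
          have hch : ∀ i : A, ∃ n : ℕ, (i : I) ∈ F → c i n ∈ uu i := by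
            intro i
            by_cases hi : (i : I) ∈ F
            · have h1 := hu1 i hi
              rw [retr_mem p q i.2] at h1
              obtain ⟨t, ht1, ht2⟩ := mem_closure_iff.1 (hq i) _ h1.1 h1.2
              obtain ⟨n, hn⟩ := hcC i ht2
              exact ⟨n, fun _ => hn ▸ ht1⟩
            · exact ⟨0, fun h => absurd h hi⟩
          choose n hn using hch
          let τ : A →₀ ℕ := Finsupp.onFinset (F.subtype (· ∈ A))
            (fun i => if (i : I) ∈ F then n i else 0) (fun i hi => by
              rw [Finset.mem_subtype]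
              by_contra h
              rw [if_neg h] at hi
              exact hi rfl)
          refine ⟨Q τ, hu2 fun i hi => ?_, ⟨τ, rfl⟩⟩
          by_cases h : i ∈ A
          · rw [hQ1 τ i h]
            have h2 : τ ⟨i, h⟩ = n ⟨i, h⟩ := by
              change (if i ∈ F then n ⟨i, h⟩ else 0) = n ⟨i, h⟩
              rw [if_pos (Finset.mem_coe.1 hi)]
            rw [h2]
            exact hn ⟨i, h⟩ (Finset.mem_coe.1 hi)
          · rw [hQ2 τ i h]
            have h3 := (hu1 i (Finset.mem_coe.1 hi)).2
            rwa [retr_notMem p q h] at h3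
        have hzero : closure (range Q) ⊆ {q | x q = 0} := by
          apply closure_minimal
          · rintro _ ⟨τ, rfl⟩
            exact hx' τ
          · exact isClosed_eq x.continuous continuous_const
        have h4 : x (retr p A q) = 0 := hzero hcl
        change |x (retr p A q)| = 0
        rw [h4, abs_zero]
      have h5 := hν (x.comp (retr p A))
      rw [integral_congr_ae hz, integral_zero] at h5
      rw [hΦ]
      exact abs_nonpos_iff.1 h5

end

end FremlinSC49
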