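import Pool.Agent.Lib.FremlinSC49.Ulam

/-!
# Reachable functionals
-/

set_option autoImplicit false

open Set Cardinal MeasureTheory Filter Topology

namespace FremlinSC49

open FremlinSC40 (Om)

universe u v

variable {X : Type u} [NormedAddCommGroup X] [NormedSpace ℝ X]

/-- The smallest set of functionals which contains `D`, which contains every `f` that vanishes on
the common kernel of countably many of its members, and which contains `Φ ω₁` for every
weak*-sequentially continuous map `Φ` from the subsets of `ω₁` into `X*` whose values at the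
countable sets it contains. -/
inductive Reach (D : Set (X →L[ℝ] ℝ)) : (X →L[ℝ] ℝ) → Prop
  | base (f : X →L[ℝ] ℝ) : f ∈ D → Reach D f
  | ctrl (g : ℕ → (X →L[ℝ] ℝ)) (f : X →L[ℝ] ℝ) : (∀ n, Reach D (g n)) →
      (∀ x, (∀ n, g n x = 0) → f x = 0) → Reach D f
  | ulam (Φ : Set Om → (X →L[ℝ] ℝ)) :
      (∀ (A : ℕ → Set Om) (B : Set Om), (∀ ξ, ∀ᶠ n in atTop, (ξ ∈ A n ↔ ξ ∈ B)) →
        ∀ x, Tendsto (fun n => Φ (A n) x) atTop (𝓝 (Φ B x))) →
      (∀ A : Set Om, A.Countable → Reach D (Φ A)) → Reach D (Φ univ)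

lemma countable_Iic_om (a : Om) : (Iic a).Countable := by
  have h2 : (Iic a) = Iio a ∪ {a} := by
    ext x
    simp [le_iff_lt_or_eq]
  rw [h2]
  exact Set.Countable.union (countable_Iio_om a) (Set.countable_singleton a)

/-- The Ulam matrix. -/
theorem exists_ulam_matrix : ∃ A : ℕ → Om → Set Om,
    (∀ n (α : ℕ → Om), Function.Injective α → ∀ ξ, ∀ᶠ k in atTop, ξ ∈ A n (α k)) ∧
    (∀ α ξ, ∀ᶠ n in atTop, (ξ ∈ A n α ↔ ξ ∈ Iio α)) := by
  have he : ∀ ξ : Om, ∃ e : Iic ξ → ℕ, Function.Injective e := fun ξ => by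
    have : Countable (Iic ξ) := (countable_Iic_om ξ).to_subtype
    exact Countable.exists_injective_nat _
  choose e he using he
  refine ⟨fun n α => {ξ | ∀ h : α ≤ ξ, n < e ξ ⟨α, h⟩}, ?_, ?_⟩
  · intro n α hα ξ
    have hfin : {k : ℕ | ∃ h : α k ≤ ξ, e ξ ⟨α k, h⟩ ≤ n}.Finite := by
      apply Set.Finite.of_injOn (f := fun k => if h : α k ≤ ξ then e ξ ⟨α k, h⟩ else 0)
        (t := Iic n) _ _ (finite_Iic n)
      · rintro k ⟨h, hk⟩
        simp only [h, dite_true]
        exact hk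
      · rintro k ⟨h, hk⟩ l ⟨h', hl⟩ heq
        simp only [h, h', dite_true] at heq
        have := he ξ heq
        exact hα (congrArg Subtype.val this)
    obtain ⟨N, hN⟩ := hfin.bddAbove
    filter_upwards [eventually_gt_atTop N] with k hk h
    by_contra hle
    exact absurd (hN ⟨h, not_lt.1 hle⟩) (not_le.2 hk)
  · intro α ξ
    by_cases h : α ≤ ξ
    · filter_upwards [eventually_ge_atTop (e ξ ⟨α, h⟩)] with n hn
      constructor
      · intro h1
        exact absurd (h1 h) (not_lt.2 hn)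
      · intro h1
        exact absurd h1 (not_lt.2 h)
    · refine Eventually.of_forall fun n => ?_
      constructor
      · intro _
        exact not_le.1 h
      · intro _ h'
        exact absurd h' h

lemma om_Iio_tendsto (β : ℕ → Om) (b : Om) (hβ : StrictMono β) (hb : IsLUB (range β) b) (ξ : Om) :
    ∀ᶠ n in atTop, (ξ ∈ Iio (β n) ↔ ξ ∈ Iio b) := by
  by_cases h : ξ < b
  · obtain ⟨_, ⟨N, rfl⟩, hN⟩ := (lt_isLUB_iff hb).1 h
    filter_upwards [eventually_ge_atTop N] with n hn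
    exact ⟨fun _ => h, fun _ => hN.trans_le (hβ.monotone hn)⟩
  · refine Eventually.of_forall fun n => ⟨fun h1 => ?_, fun h1 => absurd h1 h⟩
    exact absurd ((show ξ < β n from h1).trans_le (hb.1 ⟨n, rfl⟩)) h

/-- **Property (SC) if all functionals can be reached.** -/
theorem sc_of_reach (D : Set (X →L[ℝ] ℝ)) (hD : #D ≤ ℵ_ 1) (h : ∀ f, Reach D f) :
    ∃ ψ : Set X → X,
    (∀ C : Set X, C.Nonempty → IsCompact ((toWeakSpace ℝ X) '' C) → ψ C ∈ C) ∧
    ∀ (Ω : Type v) (_ : MeasurableSpace Ω) (μ : Measure Ω),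
      IsProbabilityMeasure μ → μ.IsComplete →
      ∀ F : Ω → Set X,
        (∀ ω, (F ω).Nonempty ∧ IsCompact ((toWeakSpace ℝ X) '' (F ω))) →
        (∀ (x' : X →L[ℝ] ℝ) (a : ℝ), MeasurableSet {ω | ∃ x ∈ F ω, a < x' x}) →
        ∀ x' : X →L[ℝ] ℝ, Measurable (fun ω => x' (ψ (F ω))) := by
  classical
  -- enumeration along `ω₁`
  have hD' : #D ≤ #(Cardinal.aleph.{u} 1).ord.ToType := by
    rw [Cardinal.mk_ord_toType]; exact hD
  obtain ⟨e⟩ := hD'
  let w : (Cardinal.aleph.{u} 1).ord.ToType → (X →L[ℝ] ℝ) := fun a =>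
    if h : ∃ d : D, e d = a then (h.choose : X →L[ℝ] ℝ) else 0
  have hw : ∀ d : D, w (e d) = d := by
    intro d
    have h1 : ∃ d' : D, e d' = e d := ⟨d, rfl⟩
    have h2 : w (e d) = (h1.choose : X →L[ℝ] ℝ) := dif_pos h1
    rw [h2, e.injective h1.choose_spec]
  let lift : (X →L[ℝ] ℝ) → (WeakSpace ℝ X → ℝ) := fun f x => f ((toWeakSpace ℝ X).symm x)
  have hcont : ∀ f : X →L[ℝ] ℝ, Continuous (lift f) := fun f =>
    WeakBilin.eval_continuous (topDualPairing ℝ X).flip f
  have hlsub : ∀ (f : X →L[ℝ] ℝ) (x y : WeakSpace ℝ X), lift f x - lift f y =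
      f ((toWeakSpace ℝ X).symm x - (toWeakSpace ℝ X).symm y) := fun f x y => by
    rw [map_sub]
  set L : Set (WeakSpace ℝ X → ℝ) := range lift with hL
  have hLc : ∀ f ∈ L, Continuous f := by rintro _ ⟨f, rfl⟩; exact hcont f
  have hLa : ∀ f ∈ L, ∀ g ∈ L, ∀ n : ℕ, (fun x => f x + n * g x) ∈ L := by
    rintro _ ⟨f, rfl⟩ _ ⟨g, rfl⟩ n
    refine ⟨f + (n : ℝ) • g, ?_⟩
    funext x
    simp [lift]
  have hLn : ∀ f ∈ L, (fun x => - f x) ∈ L := by
    rintro _ ⟨f, rfl⟩
    refine ⟨-f, ?_⟩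
    funext x
    simp [lift]
  let uu : (Cardinal.aleph.{u} 1).ord.ToType → (WeakSpace ℝ X → ℝ) := fun a => lift (w a)
  have huL : ∀ a, uu a ∈ L := fun a => ⟨w a, rfl⟩
  have huc : ∀ a, Continuous (uu a) := fun a => hcont _
  have hex : ∀ C : Set (WeakSpace ℝ X), ∃ x, C.Nonempty → IsCompact C →
      x ∈ C ∧ ∀ a, x ∈ stage uu C a := by
    intro C
    by_cases h : C.Nonempty ∧ IsCompact C
    · obtain ⟨x, hx, hx2⟩ := exists_final huc h.2 h.1
      exact ⟨x, fun _ _ => ⟨hx, hx2⟩⟩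
    · exact ⟨0, fun h1 h2 => absurd ⟨h1, h2⟩ h⟩
  choose ψ hψ using hex
  refine ⟨fun C => (toWeakSpace ℝ X).symm (ψ ((toWeakSpace ℝ X) '' C)), ?_, ?_⟩
  · intro C hne hC
    obtain ⟨y, hy, hy2⟩ := (hψ ((toWeakSpace ℝ X) '' C) (hne.image _) hC).1
    change (toWeakSpace ℝ X).symm (ψ ((toWeakSpace ℝ X) '' C)) ∈ C
    rw [← hy2, LinearEquiv.symm_apply_apply]
    exact hy
  intro Ω _ μ hμ hμc F hF hmeas x'
  set F' : Ω → Set (WeakSpace ℝ X) := fun ω => (toWeakSpace ℝ X) '' F ω with hF'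
  have hF1 : ∀ ω, (F' ω).Nonempty ∧ IsCompact (F' ω) := fun ω => ⟨(hF ω).1.image _, (hF ω).2⟩
  have hmeas' : ∀ f ∈ L, Measurable fun ω => sSup (f '' F' ω) := by
    rintro _ ⟨f, rfl⟩
    apply measurable_of_Ioi
    intro a
    have h1 : (fun ω => sSup (lift f '' (F' ω))) ⁻¹' Ioi a = {ω | ∃ x ∈ F ω, a < f x} := by
      ext ω
      have hne : (lift f '' (F' ω)).Nonempty := ((hF ω).1.image _).image _
      have hb : BddAbove (lift f '' (F' ω)) := ((hF ω).2.image (hcont f)).bddAbove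
      simp only [mem_preimage, mem_Ioi, mem_ofPred_eq, lt_csSup_iff hb hne]
      constructor
      · rintro ⟨_, ⟨_, ⟨x, hx, rfl⟩, rfl⟩, hlt⟩
        exact ⟨x, hx, by simpa [lift] using hlt⟩
      · rintro ⟨x, hx, hlt⟩
        exact ⟨_, ⟨_, ⟨x, hx, rfl⟩, rfl⟩, by simpa [lift] using hlt⟩
    rw [h1]
    exact hmeas f a
  have hι : ∀ a : (Cardinal.aleph.{u} 1).ord.ToType, (Iio a).Countable := countable_Iio_om
  have henum : ∃ s : (Cardinal.aleph.{u} 1).ord.ToType → ℕ × Om, Function.Surjective s := by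
    have hle : Cardinal.lift.{u} #(ℕ × Om) ≤ Cardinal.lift.{0}
        #(Cardinal.aleph.{u} 1).ord.ToType := by
      rw [Cardinal.mk_ord_toType, Cardinal.mk_prod, Cardinal.mk_ord_toType]
      simp only [Cardinal.mk_eq_aleph0, Cardinal.lift_id, Cardinal.lift_uzero,
        Cardinal.lift_mul, Cardinal.lift_aleph0, Cardinal.lift_aleph]
      rw [Cardinal.aleph0_mul_eq]
      · simp
      · exact Cardinal.aleph0_le_aleph _
    obtain ⟨j⟩ := Cardinal.lift_mk_le'.1 hle
    have hne : Nonempty (ℕ × Om) := by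
      have : Nonempty Om := by
        rw [← Cardinal.mk_ne_zero_iff, Cardinal.mk_ord_toType]
        exact (Cardinal.aleph_pos 1).ne'
      infer_instance
    exact ⟨Function.invFun j, Function.invFun_surjective j.injective⟩
  obtain ⟨A, hA1, hA2⟩ := exists_ulam_matrix
  have hflat : ∀ f, Reach D f → ∃ a, Flat μ uu F' (lift f) a := by
    intro f hf
    induction hf with
    | base f hfD =>
      obtain ⟨a, ha⟩ := bdd_of_countable (S := {e ⟨f, hfD⟩}) (countable_singleton _)
      refine ⟨a, Eventually.of_forall fun ω x hx y hy => ?_⟩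
      have e1 := ((mem_stage uu (F' ω)).1 hx).2 _ (ha _ rfl)
      have e2 := ((mem_stage uu (F' ω)).1 hy).2 _ (ha _ rfl)
      have e3 : uu (e ⟨f, hfD⟩) = lift f := by
        change lift (w (e ⟨f, hfD⟩)) = lift f
        rw [hw ⟨f, hfD⟩]
      have e4 : uu (e ⟨f, hfD⟩) x = uu (e ⟨f, hfD⟩) y := by
        rw [show uu (e ⟨f, hfD⟩) x = _ from e1, show uu (e ⟨f, hfD⟩) y = _ from e2]
      rw [e3] at e4
      exact e4
    | ctrl g f _ hker ih =>
      choose a ha using ih
      obtain ⟨b, hb⟩ := bdd_of_countable (countable_range a)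
      refine ⟨b, ?_⟩
      have h1 : ∀ᵐ ω ∂μ, ∀ n, ∀ x ∈ stage uu (F' ω) b, ∀ y ∈ stage uu (F' ω) b,
          lift (g n) x = lift (g n) y := by
        rw [ae_all_iff]
        exact fun n => (ha n).mono (hb _ ⟨n, rfl⟩).le
      filter_upwards [h1] with ω hω x hx y hy
      rw [← sub_eq_zero, hlsub]
      apply hker
      intro n
      rw [← hlsub, hω n x hx y hy, sub_self]
    | ulam Φ hΦ hc ih =>
      apply ulam_step hι (fun S hS => bdd_of_countable hS) henum L hLc hLa hLn uu huL μ F' hF1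
        hmeas' (fun n a => lift (Φ (A n a))) (fun a => lift (Φ (Iio a))) (lift (Φ univ))
        (fun n a => ⟨_, rfl⟩) (fun a => ⟨_, rfl⟩) ⟨_, rfl⟩
      · intro x y n ε hε
        by_contra hinf
        have hinf' : {a | ε ≤ |lift (Φ (A n a)) x - lift (Φ (A n a)) y -
            (lift (Φ univ) x - lift (Φ univ) y)|}.Infinite := hinf
        let j := hinf'.natEmbedding
        have hconv := hΦ (fun k => A n (j k).1) univ (fun ξ => by
          filter_upwards [hA1 n (fun k => (j k).1)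
            (fun k l hkl => j.injective (Subtype.ext hkl)) ξ] with k hk
          exact ⟨fun _ => mem_univ _, fun _ => hk⟩)
          ((toWeakSpace ℝ X).symm x - (toWeakSpace ℝ X).symm y)
        obtain ⟨k, hk⟩ := (Metric.tendsto_atTop.1 hconv ε hε)
        have h3 := hk k le_rfl
        rw [Real.dist_eq] at h3
        have key : ∀ α, ε ≤ |lift (Φ (A n α)) x - lift (Φ (A n α)) y -
            (lift (Φ univ) x - lift (Φ univ) y)| →
            ε ≤ |Φ (A n α) ((toWeakSpace ℝ X).symm x - (toWeakSpace ℝ X).symm y) -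
              Φ univ ((toWeakSpace ℝ X).symm x - (toWeakSpace ℝ X).symm y)| := by
          intro α h4
          rwa [hlsub, hlsub] at h4
        exact absurd h3 (not_lt.2 (key _ (j k).2))
      · intro x y a
        simp only [hlsub]
        exact hΦ (fun n => A n a) (Iio a) (fun ξ => hA2 a ξ) _
      · intro β b hβ hb x y
        simp only [hlsub]
        exact hΦ (fun n => Iio (β n)) (Iio b) (fun ξ => om_Iio_tendsto β b hβ hb ξ) _
      · intro α
        exact ih (Iio α) (countable_Iio_om α)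
  obtain ⟨a, ha⟩ := hflat x' (h x')
  have hm : Measurable fun ω => sSup (lift x' '' stage uu (F' ω) a) :=
    measurable_stage hι L hLc hLa uu huL F' hF1 hmeas' a _ ⟨x', rfl⟩
  have hae : (fun ω => sSup (lift x' '' stage uu (F' ω) a)) =ᵐ[μ]
      fun ω => x' ((toWeakSpace ℝ X).symm (ψ (F' ω))) := by
    filter_upwards [ha] with ω hω
    have h2 := (hψ (F' ω) (hF1 ω).1 (hF1 ω).2).2 a
    have h4 : lift x' '' stage uu (F' ω) a = {lift x' (ψ (F' ω))} := by
      ext y
      constructor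
      · rintro ⟨x, hx, rfl⟩
        exact hω x hx _ h2
      · rintro rfl
        exact ⟨_, h2, rfl⟩
    change sSup (lift x' '' stage uu (F' ω) a) = lift x' (ψ (F' ω))
    rw [h4, csSup_singleton]
  have hae2 : AEMeasurable (fun ω => x' ((toWeakSpace ℝ X).symm (ψ (F' ω)))) μ :=
    ⟨_, hm, hae.symm⟩
  exact aemeasurable_iff_measurable.1 hae2

end FremlinSC49
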