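import Pool.Agent.Lib.FremlinSC49.Prod

/-!
# Spaces of continuous functions on compact spaces with retractions; hereditary sets
-/

set_option autoImplicit false

open Set Cardinal MeasureTheory Filter Topology

namespace FremlinSC49

universe u w

/-- The functional `x ↦ f (x ∘ π)`. -/
noncomputable def pull {K : Type u} [TopologicalSpace K] [CompactSpace K]
    (f : C(K, ℝ) →L[ℝ] ℝ) (π : C(K, K)) : C(K, ℝ) →L[ℝ] ℝ :=
  LinearMap.mkContinuous
    { toFun := fun x => f (x.comp π)
      map_add' := fun x y => by rw [ContinuousMap.add_comp, map_add]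
      map_smul' := fun c x => by
        rw [ContinuousMap.smul_comp, map_smul]
        rfl } ‖f‖ (fun x => by
      change ‖f (x.comp π)‖ ≤ ‖f‖ * ‖x‖
      refine (f.le_opNorm _).trans (mul_le_mul_of_nonneg_left ?_ (norm_nonneg _))
      exact (ContinuousMap.norm_le _ (norm_nonneg _)).2 fun q => x.norm_coe_le_norm _)

lemma pull_apply {K : Type u} [TopologicalSpace K] [CompactSpace K]
    (f : C(K, ℝ) →L[ℝ] ℝ) (π : C(K, K)) (x : C(K, ℝ)) : pull f π x = f (x.comp π) := rfl

/-- Weak*-sequential continuity. -/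
theorem pull_tendsto {K : Type u} [TopologicalSpace K] [CompactSpace K] [T2Space K]
    (f : C(K, ℝ) →L[ℝ] ℝ) (π : ℕ → C(K, K)) (σ : C(K, K))
    (h : ∀ q, Tendsto (fun n => π n q) atTop (𝓝 (σ q))) (x : C(K, ℝ)) :
    Tendsto (fun n => pull f (π n) x) atTop (𝓝 (pull f σ x)) := by
  let _ : MeasurableSpace K := borel _
  have _ : BorelSpace K := ⟨rfl⟩
  obtain ⟨ν, hν1, hν2, hν⟩ := exists_dominating f
  rw [← tendsto_sub_nhds_zero_iff]
  have hpt : ∀ q, Tendsto (fun n => |x (π n q) - x (σ q)|) atTop (𝓝 0) := by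
    intro q
    have h2 : Tendsto (fun n => x (π n q) - x (σ q)) atTop (𝓝 0) := by
      rw [tendsto_sub_nhds_zero_iff]
      exact (x.continuous.tendsto _).comp (h q)
    simpa using h2.abs
  have hint2 : Tendsto (fun n => ∫ q, |x (π n q) - x (σ q)| ∂ν) atTop
      (𝓝 (∫ _, (0 : ℝ) ∂ν)) := by
    refine tendsto_integral_of_dominated_convergence (fun _ => 2 * ‖x‖) ?_
      (integrable_const _) ?_ (Eventually.of_forall hpt)
    · intro n
      have hc : Continuous fun q => |x (π n q) - x (σ q)| := by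
        fun_prop
      exact hc.aestronglyMeasurable_of_compactSpace
    · intro n
      refine Eventually.of_forall fun q => ?_
      rw [Real.norm_eq_abs, abs_abs]
      have e1 := x.norm_coe_le_norm (π n q)
      have e2 := x.norm_coe_le_norm (σ q)
      rw [Real.norm_eq_abs] at e1 e2
      calc |x (π n q) - x (σ q)| ≤ |x (π n q)| + |x (σ q)| := abs_sub _ _
        _ ≤ 2 * ‖x‖ := by linarith
  rw [integral_zero] at hint2
  refine squeeze_zero_norm (fun n => ?_) hint2
  rw [pull_apply, pull_apply, ← map_sub, Real.norm_eq_abs]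
  exact hν _

/-- Compact spaces with a system of maps which is indexed by the subsets of `I`. -/
theorem reach_of_maps {K : Type u} [TopologicalSpace K] [CompactSpace K] [T2Space K]
    {I : Type w} (hI : #I ≤ ℵ_ 1) (π : Set I → C(K, K)) (hπ : ∀ q, π univ q = q)
    (hseq : ∀ (A : ℕ → Set I) (B : Set I), (∀ ξ, ∀ᶠ n in atTop, (ξ ∈ A n ↔ ξ ∈ B)) →
      ∀ q, Tendsto (fun n => π (A n) q) atTop (𝓝 (π B q)))
    (D : Set (C(K, ℝ) →L[ℝ] ℝ)) (f : C(K, ℝ) →L[ℝ] ℝ)
    (hD : ∀ A : Set I, A.Countable → Reach D (pull f (π A))) : Reach D f := by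
  have h1 : pull f (π univ) = f := by
    ext x
    rw [pull_apply]
    congr 1
    ext q
    change x (π univ q) = x q
    rw [hπ q]
  rw [← h1]
  exact reach_of_phi hI (fun A => pull f (π A))
    (fun A B hAB x => pull_tendsto f _ _ (hseq A B hAB) x) hD

section

variable {I : Type u} {K : I → Type u} [∀ i, TopologicalSpace (K i)]

lemma retr_tendsto (p : ∀ i, K i) (A : ℕ → Set I) (B : Set I)
    (h : ∀ ξ, ∀ᶠ n in atTop, (ξ ∈ A n ↔ ξ ∈ B)) (q : ∀ i, K i) :
    Tendsto (fun n => retr p (A n) q) atTop (𝓝 (retr p B q)) := by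
  rw [tendsto_pi_nhds]
  intro i
  refine tendsto_const_nhds.congr' ?_
  filter_upwards [h i] with n hn
  by_cases hi : i ∈ B
  · rw [retr_mem p q hi, retr_mem p q (hn.2 hi)]
  · rw [retr_notMem p q hi, retr_notMem p q fun h => hi (hn.1 h)]

/-- A closed set of points is hereditary if it is invariant under the replacement of any set of
coordinates by those of `p`. -/
def Hereditary (p : ∀ i, K i) (L : Set (∀ i, K i)) : Prop :=
  ∀ q ∈ L, ∀ A : Set I, (retr p A : (∀ i, K i) → (∀ i, K i)) q ∈ L

/-- The restriction of `retr` to a hereditary set. -/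
noncomputable def retrL (p : ∀ i, K i) (L : Set (∀ i, K i)) (hL : Hereditary p L) (A : Set I) :
    C(L, L) where
  toFun q := ⟨retr p A q.1, hL q.1 q.2 A⟩
  continuous_toFun := ((retr p A).continuous.comp continuous_subtype_val).subtype_mk _

/-- the subset of the points which are equal to `p` outside `A` -/
def partL (p : ∀ i, K i) (L : Set (∀ i, K i)) (A : Set I) : Set L :=
  {q | ∀ i ∉ A, q.1 i = p i}

variable [∀ i, CompactSpace (K i)] [∀ i, T2Space (K i)]

lemma exists_dense_partL [∀ i, SecondCountableTopology (K i)] (p : ∀ i, K i)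
    (L : Set (∀ i, K i)) (hLc : IsClosed L) (A : Set I) (hA : A.Countable) :
    ∃ S : Set L, S.Countable ∧ S ⊆ partL p L A ∧ partL p L A ⊆ closure S := by
  have _ : CompactSpace L := isCompact_iff_compactSpace.1 hLc.isCompact
  have hcl : IsClosed (partL p L A) := by
    have h1 : partL p L A = ⋂ i : {i // i ∉ A}, {q : L | q.1 i.1 = p i.1} := by
      ext q
      simp [partL]
    rw [h1]
    exact isClosed_iInter fun i => isClosed_eq
      ((continuous_apply i.1).comp continuous_subtype_val) continuous_const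
  have _ : CompactSpace (partL p L A) := isCompact_iff_compactSpace.1 hcl.isCompact
  have hAc : Countable A := hA.to_subtype
  let r : partL p L A → (∀ i : A, K i) := fun q i => q.1.1 i
  have hr : Continuous r := continuous_pi fun i =>
    (continuous_apply i.1).comp (continuous_subtype_val.comp continuous_subtype_val)
  have hrinj : Function.Injective r := by
    intro q q' h
    apply Subtype.ext
    apply Subtype.ext
    funext i
    by_cases hi : i ∈ A
    · exact congrFun h ⟨i, hi⟩
    · rw [q.2 i hi, q'.2 i hi]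
  have hemb := hr.isClosedEmbedding hrinj
  have _ : SecondCountableTopology (partL p L A) := hemb.isEmbedding.secondCountableTopology
  obtain ⟨s, hs1, hs2⟩ := TopologicalSpace.exists_countable_dense (partL p L A)
  refine ⟨Subtype.val '' s, hs1.image _, ?_, ?_⟩
  · rintro _ ⟨q, -, rfl⟩
    exact q.2
  · intro q hq
    have h2 := hs2 ⟨q, hq⟩
    have h3 := image_closure_subset_closure_image (f := (Subtype.val : partL p L A → L))
      continuous_subtype_val (s := s)
    exact h3 ⟨⟨q, hq⟩, h2, rfl⟩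

/-- **Hereditary sets.** -/
theorem good_hereditary (hI : #I ≤ ℵ_ 1) [∀ i, SecondCountableTopology (K i)]
    (p : ∀ i, K i) (L : Set (∀ i, K i)) (hLc : IsClosed L) (hL : Hereditary p L)
    [CompactSpace L] : Good C(L, ℝ) := by
  classical
  rcases L.eq_empty_or_nonempty with hLe | hLne
  · refine ⟨{0}, ?_, fun f => Reach.base f ?_⟩
    · rw [Cardinal.mk_singleton]
      exact Cardinal.one_le_aleph0.trans (Cardinal.aleph0_le_aleph 1)
    · rw [mem_singleton_iff]
      ext x
      have hx : x = 0 := by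
        ext q
        exact (Set.eq_empty_iff_forall_notMem.1 hLe q.1 q.2).elim
      rw [hx, map_zero, map_zero]
  obtain ⟨q0, hq0⟩ := hLne
  have hle : #I ≤ #(Cardinal.aleph.{u} 1).ord.ToType := by
    rw [Cardinal.mk_ord_toType]; exact hI
  obtain ⟨e⟩ := hle
  have hcount : ∀ α, (e ⁻¹' (Iio α)).Countable := fun α =>
    (countable_Iio_om α).preimage e.injective
  choose S hSc hS1 hS2 using fun α => exists_dense_partL p L hLc (e ⁻¹' (Iio α)) (hcount α)
  let δ : L → (C(L, ℝ) →L[ℝ] ℝ) := fun q => ContinuousMap.evalCLM ℝ q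
  set D : Set (C(L, ℝ) →L[ℝ] ℝ) := δ '' ((⋃ α, S α) ∪ {⟨q0, hq0⟩}) with hD
  have hcard : #D ≤ ℵ_ 1 := by
    refine Cardinal.mk_image_le.trans ?_
    refine (Cardinal.mk_union_le _ _).trans ?_
    refine Cardinal.add_le_of_le (Cardinal.aleph0_le_aleph 1) ?_ ?_
    · refine (Cardinal.mk_iUnion_le _).trans ?_
      rw [Cardinal.mk_ord_toType]
      refine (mul_le_mul_right (c := ℵ_ 1) ?_ _).trans (Cardinal.mul_eq_self
        (Cardinal.aleph0_le_aleph 1)).le
      refine ciSup_le' fun α => ?_
      exact (hSc α).le_aleph0.trans (Cardinal.aleph0_le_aleph 1)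
    · rw [Cardinal.mk_singleton]
      exact Cardinal.one_le_aleph0.trans (Cardinal.aleph0_le_aleph 1)
  refine ⟨D, hcard, fun f => ?_⟩
  have h0 : Reach D 0 := Reach.ctrl (fun _ => δ ⟨q0, hq0⟩) 0
    (fun _ => Reach.base _ ⟨_, Or.inr rfl, rfl⟩) fun x _ => rfl
  apply reach_of_maps hI (fun A => retrL p L hL A)
  · intro q
    apply Subtype.ext
    funext i
    exact retr_mem p q.1 (mem_univ i)
  · intro A B hAB q
    rw [tendsto_subtype_rng]
    exact retr_tendsto p A B hAB q.1
  · intro A hA
    have hA' : (e '' A).Countable := hA.image e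
    obtain ⟨α, hα⟩ := bdd_of_countable hA'
    have hsub : A ⊆ e ⁻¹' (Iio α) := fun i hi => hα _ ⟨i, hi, rfl⟩
    refine reach_of_countable h0 (C := δ '' S α) ((hSc α).image δ) ?_ ?_
    · rintro _ ⟨q, hq, rfl⟩
      exact Reach.base _ ⟨q, Or.inl (mem_iUnion.2 ⟨α, hq⟩), rfl⟩
    · intro x hx
      have hzero : closure (S α) ⊆ {q | x q = 0} := by
        apply closure_minimal
        · intro q hq
          exact hx _ ⟨q, hq, rfl⟩
        · exact isClosed_eq x.continuous continuous_const
      have h3 : x.comp (retrL p L hL A) = 0 := by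
        ext q
        apply hzero
        apply hS2 α
        intro i hi
        exact retr_notMem p q.1 fun h => hi (hsub h)
      rw [pull_apply, h3, map_zero]

end

/-- Good spaces are closed under isomorphisms. -/
theorem good_of_equiv {X Y : Type u} [NormedAddCommGroup X] [NormedSpace ℝ X]
    [NormedAddCommGroup Y] [NormedSpace ℝ Y] (h : Good Y) (e : X ≃L[ℝ] Y) : Good X := by
  obtain ⟨D, hD, hr⟩ := h
  refine ⟨(fun d : Y →L[ℝ] ℝ => d.comp (e : X →L[ℝ] Y)) '' D, Cardinal.mk_image_le.trans hD,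
    fun f => ?_⟩
  have h1 : f = (f.comp (e.symm : Y →L[ℝ] X)).comp (e : X →L[ℝ] Y) := by
    ext x
    simp
  rw [h1]
  exact (hr _).comp _

/-- Controlled spaces are good. -/
theorem good_of_controlled {X : Type u} [NormedAddCommGroup X] [NormedSpace ℝ X]
    (D : Set (X →L[ℝ] ℝ)) (hD : #D ≤ ℵ_ 1) (h : Controlled D) : Good X := by
  refine ⟨D ∪ {0}, ?_, fun f => ?_⟩
  · refine (Cardinal.mk_union_le _ _).trans ?_
    refine Cardinal.add_le_of_le (Cardinal.aleph0_le_aleph 1) hD ?_
    rw [Cardinal.mk_singleton]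
    exact Cardinal.one_le_aleph0.trans (Cardinal.aleph0_le_aleph 1)
  · obtain ⟨C, hCD, hCc, hC⟩ := h f
    exact reach_of_countable (Reach.base _ (Or.inr rfl)) hCc
      (fun c hc => Reach.base _ (Or.inl (hCD hc))) hC

/-- Unconditional sums of good spaces are good. -/
theorem good_uncond {Z : Type u} [NormedAddCommGroup Z] [NormedSpace ℝ Z] [CompleteSpace Z]
    {I : Type u} (hI : #I ≤ ℵ_ 1) (Y : I → Type u) [∀ i, NormedAddCommGroup (Y i)]
    [∀ i, NormedSpace ℝ (Y i)] (R : ∀ i, Z →L[ℝ] Y i) (S : ∀ i, Y i →L[ℝ] Z)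
    (hsum : ∀ z (f : Z →L[ℝ] ℝ), Summable fun i => |f (S i (R i z))|)
    (hf : ∀ z (f : Z →L[ℝ] ℝ), f z = ∑' i, f (S i (R i z)))
    (hY : ∀ i, Good (Y i)) : Good Z := by
  choose D hD hr using hY
  refine ⟨(⋃ i, (fun d : Y i →L[ℝ] ℝ => d.comp (R i)) '' D i) ∪ {0}, ?_, fun f => ?_⟩
  · refine (Cardinal.mk_union_le _ _).trans ?_
    refine Cardinal.add_le_of_le (Cardinal.aleph0_le_aleph 1) ?_ ?_
    · refine (Cardinal.mk_iUnion_le _).trans ?_
      calc #I * _ ≤ ℵ_ 1 * ℵ_ 1 := by
            refine mul_le_mul' hI (ciSup_le' fun i => Cardinal.mk_image_le.trans (hD i))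
        _ = ℵ_ 1 := Cardinal.mul_eq_self (Cardinal.aleph0_le_aleph 1)
    · rw [Cardinal.mk_singleton]
      exact Cardinal.one_le_aleph0.trans (Cardinal.aleph0_le_aleph 1)
  · refine reach_uncond hI (Reach.base _ (Or.inr rfl)) (fun i => (S i).comp (R i)) f
      (fun z => hsum z f) (fun z => hf z f) fun i => ?_
    have h1 := (hr i (f.comp (S i))).comp (R i)
    refine Reach.mono ?_ h1
    intro g hg
    exact Or.inl (mem_iUnion.2 ⟨i, hg⟩)

end FremlinSC49
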