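import Pool.Agent.Lib.FremlinSC49.Retr

/-!
# Separable and scattered compact spaces are controlled by points
-/

set_option autoImplicit false

open Set Cardinal MeasureTheory Filter Topology

namespace FremlinSC49

universe u

variable (K : Type u) [TopologicalSpace K] [CompactSpace K]

theorem ptControlled_of_separable [TopologicalSpace.SeparableSpace K] : PtControlled K := by
  obtain ⟨S, hS1, hS2⟩ := TopologicalSpace.exists_countable_dense K
  refine ⟨S, hS1.le_aleph0.trans (Cardinal.aleph0_le_aleph 1), fun f => ⟨S, Subset.rfl, hS1, ?_⟩⟩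
  intro x hx
  have h1 : x = 0 := by
    apply DFunLike.coe_injective
    exact Continuous.ext_on hS2 x.continuous continuous_const fun t ht => hx t ht
  rw [h1, map_zero]

/-- Every non-empty closed subset has an isolated point. -/
def ScatteredSpace (K : Type u) [TopologicalSpace K] : Prop :=
  ∀ L : Set K, IsClosed L → L.Nonempty → ∃ t ∈ L, ∃ U : Set K, IsOpen U ∧ U ∩ L = {t}

theorem ptControlled_of_scattered [T2Space K] (hcard : #K ≤ ℵ_ 1) (hsc : ScatteredSpace K) :
    PtControlled K := by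
  refine ⟨univ, by rwa [Cardinal.mk_univ], fun f => ?_⟩
  let _ : MeasurableSpace K := borel _
  have _ : BorelSpace K := ⟨rfl⟩
  obtain ⟨ν, hν1, hν2, hν⟩ := exists_dominating f
  have hC : {t | ν {t} ≠ 0}.Countable :=
    countable_of_pointFinite ν (fun t : K => ({t} : Set K)) (fun t => measurableSet_singleton t)
      fun ω => (finite_singleton ω).subset fun t (ht : ω ∈ ({t} : Set K)) => by
        rw [mem_singleton_iff] at ht
        rw [ht]
        rfl
  refine ⟨{t | ν {t} ≠ 0}, subset_univ _, hC, ?_⟩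
  have hnull : ν {t | ν {t} ≠ 0}ᶜ = 0 := by
    by_contra hpos
    obtain ⟨L, hLC, hL, hLpos⟩ := (hC.measurableSet.compl).exists_lt_isCompact_of_ne_top
      (measure_ne_top ν _) (pos_iff_ne_zero.2 hpos)
    let V : Set K := ⋃₀ {U | IsOpen U ∧ ν (U ∩ L) = 0}
    have hV : IsOpen V := isOpen_sUnion fun U hU => hU.1
    have hLV : ν (L ∩ V) = 0 := by
      by_contra hpos2
      obtain ⟨M, hMLV, hM, hMpos⟩ := (hL.isClosed.measurableSet.inter
        hV.measurableSet).exists_lt_isCompact_of_ne_top (measure_ne_top ν _)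
        (pos_iff_ne_zero.2 hpos2)
      obtain ⟨T, hT1, hT2, hT3⟩ := hM.elim_finite_subcover_image
        (b := {U | IsOpen U ∧ ν (U ∩ L) = 0}) (c := id) (fun U hU => hU.1) (by
          intro t ht
          obtain ⟨U, hU, htU⟩ := (hMLV ht).2
          exact mem_iUnion₂.2 ⟨U, hU, htU⟩)
      have h1 : M ⊆ ⋃ U ∈ T, (U ∩ L) := by
        intro t ht
        obtain ⟨U, hU, htU⟩ := mem_iUnion₂.1 (hT3 ht)
        exact mem_iUnion₂.2 ⟨U, hU, htU, (hMLV ht).1⟩
      have h2 : ν M = 0 := by
        refine measure_mono_null h1 ?_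
        rw [measure_biUnion_null_iff hT2.countable]
        exact fun U hU => (hT1 hU).2
      exact hMpos.ne' h2
    have hne : (L ∩ Vᶜ).Nonempty := by
      rw [nonempty_iff_ne_empty]
      intro he
      have h3 : L ⊆ L ∩ V := by
        intro t ht
        refine ⟨ht, ?_⟩
        by_contra h
        exact (Set.eq_empty_iff_forall_notMem.1 he t) ⟨ht, h⟩
      exact hLpos.ne' (measure_mono_null h3 hLV)
    obtain ⟨t, ⟨htL, htV⟩, U, hU, hUt⟩ := hsc _ (hL.isClosed.inter hV.isClosed_compl) hne
    have h4 : ν (U ∩ L) ≠ 0 := by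
      intro h
      apply htV
      have htU : t ∈ U := by
        have h5 : t ∈ U ∩ (L ∩ Vᶜ) := by rw [hUt]; rfl
        exact h5.1
      exact ⟨U, ⟨hU, h⟩, htU⟩
    have h6 : U ∩ L ⊆ {t} ∪ (L ∩ V) := by
      rintro s ⟨hs1, hs2⟩
      by_cases hsV : s ∈ V
      · exact Or.inr ⟨hs2, hsV⟩
      · left
        rw [← hUt]
        exact ⟨hs1, hs2, hsV⟩
    have h7 : ν {t} ≠ 0 := by
      intro h
      exact h4 (measure_mono_null h6 (measure_union_null h hLV))
    exact hLC htL h7
  intro x hx
  have hae : ∀ᵐ t ∂ν, |x t| = 0 := by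
    have h8 : ∀ᵐ t ∂ν, t ∉ {t | ν {t} ≠ 0}ᶜ := measure_eq_zero_iff_ae_notMem.1 hnull
    filter_upwards [h8] with t ht
    have h9 : t ∈ {t | ν {t} ≠ 0} := not_not.1 ht
    rw [hx t h9, abs_zero]
  have h5 := hν x
  rw [integral_congr_ae hae, integral_zero] at h5
  exact abs_nonpos_iff.1 h5

end FremlinSC49
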