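import Mathlib
import Pool.Agent.Lib.FremlinSC49.Crit
import Pool.Agent.Lib.FremlinSC40.Branch

section

/-!
# Uncountable trees with antichains of bounded size have uncountable chains
-/

set_option autoImplicit false

open Set

namespace FremlinSC49

private lemma exists_max_card {N : Type*} (P : Finset N → Prop) (h0 : ∃ F, P F) (n : ℕ)
    (hb : ∀ F, P F → F.card ≤ n) : ∃ F, P F ∧ ∀ F', P F' → F'.card ≤ F.card := by
  classical
  obtain ⟨F0, hF0⟩ := h0
  have h1 : ∃ F, P F ∧ F.card = Nat.findGreatest (fun k => ∃ F, P F ∧ F.card = k) n := by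
    apply Nat.findGreatest_spec (P := fun k => ∃ F, P F ∧ F.card = k) (hb F0 hF0)
    exact ⟨F0, hF0, rfl⟩
  obtain ⟨F, hF, hFc⟩ := h1
  refine ⟨F, hF, fun F' hF' => ?_⟩
  rw [hFc]
  exact Nat.le_findGreatest (hb F' hF') ⟨F', hF', rfl⟩

/-- The chain lemma. -/
theorem exists_chain {N : Type*} (le : N → N → Prop) (hrefl : ∀ s, le s s)
    (htrans : ∀ s t u, le s t → le t u → le s u)
    (htree : ∀ s t u, le s u → le t u → le s t ∨ le t s) (H : Set N)
    (hpred : ∀ t ∈ H, {s ∈ H | le s t}.Countable) (n : ℕ)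
    (hanti : ∀ F : Finset N, (∀ s ∈ F, s ∈ H) →
      (∀ s ∈ F, ∀ t ∈ F, s ≠ t → ¬ le s t) → F.card ≤ n)
    (hH : ¬ H.Countable) :
    ∃ C ⊆ H, ¬ C.Countable ∧ ∀ s ∈ C, ∀ t ∈ C, le s t ∨ le t s := by
  classical
  set H' := {t ∈ H | ¬ {s ∈ H | le t s}.Countable} with hH'
  -- the complement is countable
  have h1 : (H \ H').Countable := by
    obtain ⟨F, ⟨hF1, hF2⟩, hFmax⟩ := exists_max_card
      (fun F : Finset N => (∀ s ∈ F, s ∈ H \ H') ∧ ∀ s ∈ F, ∀ t ∈ F, s ≠ t → ¬ le s t)
      ⟨∅, by simp⟩ n (fun F hF => hanti F (fun s hs => (hF.1 s hs).1) hF.2)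
    have h2 : H \ H' ⊆ ⋃ t ∈ F, ({s ∈ H | le t s} ∪ {s ∈ H | le s t}) := by
      intro s hs
      by_contra hcon
      simp only [mem_iUnion, mem_union, not_exists, not_or] at hcon
      have hsF : s ∉ F := by
        intro h
        exact (hcon s h).1 ⟨hs.1, hrefl s⟩
      have h3 := hFmax (insert s F) ⟨?_, ?_⟩
      · rw [Finset.card_insert_of_notMem hsF] at h3
        omega
      · intro t ht
        rcases Finset.mem_insert.1 ht with rfl | h
        · exact hs
        · exact hF1 t h
      · intro t ht u hu htu hle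
        rcases Finset.mem_insert.1 ht with rfl | h
        · rcases Finset.mem_insert.1 hu with rfl | h'
          · exact htu rfl
          · exact (hcon u h').2 ⟨hs.1, hle⟩
        · rcases Finset.mem_insert.1 hu with rfl | h'
          · exact (hcon t h).1 ⟨hs.1, hle⟩
          · exact hF2 t h u h' htu hle
    refine Set.Countable.mono h2 ?_
    refine (Finset.countable_toSet F).biUnion fun t ht => ?_
    have ht' := hF1 t ht
    refine Set.Countable.union ?_ (hpred t ht'.1)
    by_contra hc
    exact ht'.2 ⟨ht'.1, hc⟩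
  have h2 : ¬ H'.Countable := by
    intro h
    apply hH
    refine (h1.union h).mono ?_
    intro s hs
    by_cases h' : s ∈ H'
    · exact Or.inr h'
    · exact Or.inl ⟨hs, h'⟩
  obtain ⟨t0, ht0⟩ : H'.Nonempty := by
    rw [nonempty_iff_ne_empty]
    intro h
    rw [h] at h2
    exact h2 countable_empty
  obtain ⟨F, ⟨hF1, hF2⟩, hFmax⟩ := exists_max_card
      (fun F : Finset N => (∀ s ∈ F, s ∈ H') ∧ ∀ s ∈ F, ∀ t ∈ F, s ≠ t → ¬ le s t)
      ⟨∅, by simp⟩ n (fun F hF => hanti F (fun s hs => (hF.1 s hs).1) hF.2)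
  have hFne : F.Nonempty := by
    by_contra h
    rw [Finset.not_nonempty_iff_eq_empty] at h
    have h3 := hFmax {t0} ⟨by
      intro s hs
      rw [Finset.mem_singleton] at hs
      rw [hs]; exact ht0, by
      intro s hs t ht hst
      rw [Finset.mem_singleton] at hs ht
      exact absurd (hs.trans ht.symm) hst⟩
    rw [h] at h3
    simp at h3
  obtain ⟨t1, ht1⟩ := hFne
  have ht1' := hF1 t1 ht1
  refine ⟨{s ∈ H' | le t1 s}, fun s hs => hs.1.1, ?_, ?_⟩
  · intro h
    apply ht1'.2
    refine (h1.union h).mono ?_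
    intro s hs
    by_cases h' : s ∈ H'
    · exact Or.inr ⟨h', hs.2⟩
    · exact Or.inl ⟨hs.1, h'⟩
  · intro s hs s' hs'
    by_contra hcon
    push Not at hcon
    have hinc : ∀ u, le t1 u → ∀ t ∈ F, t ≠ t1 → ¬ le u t ∧ ¬ le t u := by
      intro u hu t ht htt
      constructor
      · intro h
        exact hF2 t1 ht1 t ht (Ne.symm htt) (htrans _ _ _ hu h)
      · intro h
        rcases htree t1 t u hu h with h' | h'
        · exact hF2 t1 ht1 t ht (Ne.symm htt) h'
        · exact hF2 t ht t1 ht1 htt h'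
    have hss : s ≠ s' := by
      rintro rfl
      exact hcon.1 (hrefl s)
    have hs1 : s' ∉ F.erase t1 := by
      intro h
      obtain ⟨h3, h4⟩ := Finset.mem_erase.1 h
      exact (hinc s' hs'.2 s' h4 h3).1 (hrefl s')
    have hs2 : s ∉ insert s' (F.erase t1) := by
      intro h
      rcases Finset.mem_insert.1 h with h | h
      · exact hss h
      · obtain ⟨h3, h4⟩ := Finset.mem_erase.1 h
        exact (hinc s hs.2 s h4 h3).1 (hrefl s)
    have h3 := hFmax (insert s (insert s' (F.erase t1))) ⟨?_, ?_⟩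
    · rw [Finset.card_insert_of_notMem hs2, Finset.card_insert_of_notMem hs1,
        Finset.card_erase_of_mem ht1] at h3
      have : 1 ≤ F.card := Finset.card_pos.2 ⟨t1, ht1⟩
      omega
    · intro t ht
      rcases Finset.mem_insert.1 ht with rfl | h
      · exact hs.1
      · rcases Finset.mem_insert.1 h with rfl | h
        · exact hs'.1
        · exact hF1 t (Finset.mem_of_mem_erase h)
    · intro t ht u hu htu hle
      have key : ∀ w, w ∈ insert s (insert s' (F.erase t1)) →
          w = s ∨ w = s' ∨ (w ∈ F ∧ w ≠ t1) := by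
        intro w hw
        rcases Finset.mem_insert.1 hw with rfl | h
        · exact Or.inl rfl
        · rcases Finset.mem_insert.1 h with rfl | h
          · exact Or.inr (Or.inl rfl)
          · obtain ⟨h3, h4⟩ := Finset.mem_erase.1 h
            exact Or.inr (Or.inr ⟨h4, h3⟩)
      rcases key t ht with rfl | rfl | ⟨h3, h4⟩
      · rcases key u hu with rfl | rfl | ⟨h5, h6⟩
        · exact htu rfl
        · exact hcon.1 hle
        · exact (hinc _ hs.2 u h5 h6).1 hle
      · rcases key u hu with rfl | rfl | ⟨h5, h6⟩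
        · exact hcon.2 hle
        · exact htu rfl
        · exact (hinc _ hs'.2 u h5 h6).1 hle
      · rcases key u hu with rfl | rfl | ⟨h5, h6⟩
        · exact (hinc _ hs.2 t h3 h4).2 hle
        · exact (hinc _ hs'.2 t h3 h4).2 hle
        · exact hF2 t h3 u h5 htu hle

end FremlinSC49
end

section

/-!
# Control of the dual by functionals of countable support
-/

set_option autoImplicit false

open Set Cardinal MeasureTheory

namespace FremlinSC49

universe u

variable {X : Type u} [NormedAddCommGroup X] [NormedSpace ℝ X]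

/-- A subspace with separable quotient is the intersection of countably many kernels. -/
lemma exists_control (Y : Submodule ℝ X) (hY : IsClosed (Y : Set X))
    (hsep : ∃ S : Set (X ⧸ Y), S.Countable ∧ Dense S) :
    ∃ D : Set (X →L[ℝ] ℝ), D.Countable ∧ ∀ x, (∀ d ∈ D, d x = 0) → x ∈ Y := by
  have : IsClosed (Y : Set X) := hY
  obtain ⟨S, hSc, hSd⟩ := hsep
  obtain ⟨D, hD, hsep⟩ := exists_separating (X := X ⧸ Y) ℵ₀ S hSd
    (Cardinal.le_aleph0_iff_set_countable.2 hSc)
  refine ⟨(fun g => g.comp Y.mkQL) '' D,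
    (Cardinal.le_aleph0_iff_set_countable.1 hD).image _, fun x hx => ?_⟩
  have h1 : Y.mkQL x = 0 := by
    apply hsep
    intro c hc
    exact hx _ ⟨c, hc, rfl⟩
  rw [Submodule.mkQL_apply, Submodule.mkQ_apply, Submodule.Quotient.mk_eq_zero] at h1
  exact h1

/-- Functionals which vanish on all but countably many given generators. -/
lemma exists_control_support {I : Type*} (v : I → X)
    (hv : (Submodule.span ℝ (range v)).topologicalClosure = ⊤) (J : Set I) (hJ : J.Countable) :
    ∃ D : Set (X →L[ℝ] ℝ), D.Countable ∧ ∀ f : X →L[ℝ] ℝ, (∀ i, i ∉ J → f (v i) = 0) →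
      ∀ x, (∀ d ∈ D, d x = 0) → f x = 0 := by
  set Y : Submodule ℝ X := (Submodule.span ℝ (v '' Jᶜ)).topologicalClosure with hYdef
  have hY : IsClosed (Y : Set X) := Submodule.isClosed_topologicalClosure _
  obtain ⟨D, hD, hsep⟩ := exists_control Y hY (by
    have : IsClosed (Y : Set X) := hY
    -- the image of the span is contained in a separable set
    have h1 : (Y.mkQL '' (Submodule.span ℝ (range v) : Set X)) ⊆
        (Submodule.span ℝ (Y.mkQL '' (v '' J)) : Set (X ⧸ Y)) := by
      have h2 : Submodule.map (Y.mkQL : X →ₗ[ℝ] X ⧸ Y) (Submodule.span ℝ (range v)) ≤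
          Submodule.span ℝ (Y.mkQL '' (v '' J)) := by
        rw [Submodule.map_span, Submodule.span_le]
        rintro _ ⟨_, ⟨i, rfl⟩, rfl⟩
        by_cases hi : i ∈ J
        · exact Submodule.subset_span ⟨v i, ⟨i, hi, rfl⟩, rfl⟩
        · have h3 : v i ∈ Y := by
            apply Submodule.le_topologicalClosure
            exact Submodule.subset_span ⟨i, hi, rfl⟩
          have h4 : (Y.mkQL : X →ₗ[ℝ] X ⧸ Y) (v i) = 0 := by
            rw [Submodule.toLinearMap_mkQL, Submodule.mkQ_apply, Submodule.Quotient.mk_eq_zero]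
            exact h3
          rw [h4]
          exact Submodule.zero_mem _
      rintro _ ⟨x, hx, rfl⟩
      exact h2 ⟨x, hx, rfl⟩
    have h3 : TopologicalSpace.IsSeparable
        (Submodule.span ℝ (Y.mkQL '' (v '' J)) : Set (X ⧸ Y)) := by
      apply TopologicalSpace.IsSeparable.span
      exact ((hJ.image v).image _).isSeparable
    have h4 : TopologicalSpace.IsSeparable (univ : Set (X ⧸ Y)) := by
      refine (h3.mono h1).closure.mono ?_
      intro z _
      obtain ⟨x, rfl⟩ := Submodule.mkQ_surjective Y z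
      have h5 : x ∈ closure (Submodule.span ℝ (range v) : Set X) := by
        rw [← Submodule.topologicalClosure_coe, hv]
        exact mem_univ x
      exact image_closure_subset_closure_image Y.mkQL.continuous ⟨x, h5, rfl⟩
    obtain ⟨S, hS, hSd⟩ := h4
    exact ⟨S, hS, fun z => hSd (mem_univ z)⟩)
  refine ⟨D, hD, fun f hf x hx => ?_⟩
  have h1 : Y ≤ LinearMap.ker (f : X →ₗ[ℝ] ℝ) := by
    rw [hYdef]
    apply Submodule.topologicalClosure_minimal
    · rw [Submodule.span_le]
      rintro _ ⟨i, hi, rfl⟩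
      exact hf i hi
    · exact ContinuousLinearMap.isClosed_ker f
  exact h1 (hsep x hx)

/-- The control criterion for spaces with `ℵ₁` generators. -/
theorem controlled_of_support {I : Type u} (hI : #I ≤ ℵ_ 1) (v : I → X)
    (hv : (Submodule.span ℝ (range v)).topologicalClosure = ⊤) (E : Set (X →L[ℝ] ℝ))
    (hE : #E ≤ ℵ_ 1)
    (h : ∀ f : X →L[ℝ] ℝ, ∃ g : X →L[ℝ] ℝ, ∃ C ⊆ E, C.Countable ∧
      (∀ x, (∀ c ∈ C, c x = 0) → g x = 0) ∧ {i | (f - g) (v i) ≠ 0}.Countable) :
    ∃ D : Set (X →L[ℝ] ℝ), #D ≤ ℵ_ 1 ∧ Controlled D := by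
  have hI' : #I ≤ #(Cardinal.aleph.{u} 1).ord.ToType := by
    rw [Cardinal.mk_ord_toType]; exact hI
  obtain ⟨e⟩ := hI'
  have hJ : ∀ a : (Cardinal.aleph.{u} 1).ord.ToType, {i | e i < a}.Countable := fun a =>
    (countable_Iio_om a).preimage e.injective
  choose D hDc hD using fun a => exists_control_support v hv {i | e i < a} (hJ a)
  refine ⟨(⋃ a, D a) ∪ E, ?_, ?_⟩
  · refine (Cardinal.mk_union_le _ _).trans ?_
    have h1 : #(⋃ a, D a) ≤ ℵ_ 1 := by
      refine (Cardinal.mk_iUnion_le _).trans ?_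
      rw [Cardinal.mk_ord_toType]
      refine (mul_le_mul' le_rfl (ciSup_le' (a := ℵ_ 1) fun a => ?_)).trans ?_
      · exact (Cardinal.le_aleph0_iff_set_countable.2 (hDc a)).trans
          (Cardinal.aleph0_le_aleph 1)
      · rw [Cardinal.mul_eq_self (Cardinal.aleph0_le_aleph 1)]
    exact Cardinal.add_le_of_le (Cardinal.aleph0_le_aleph 1) h1 hE
  · intro f
    obtain ⟨g, C, hCE, hCc, hC, hfg⟩ := h f
    obtain ⟨a, ha⟩ := bdd_of_countable (hfg.image e)
    refine ⟨D a ∪ C, ?_, (hDc a).union hCc, ?_⟩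
    · exact union_subset_union (subset_iUnion D a) hCE
    · intro x hx
      have h1 : (f - g) x = 0 := by
        apply hD a (f - g) _ x (fun d hd => hx d (Or.inl hd))
        intro i hi
        by_contra hne
        exact hi (ha _ ⟨i, hne, rfl⟩)
      have h2 : g x = 0 := hC x (fun c hc => hx c (Or.inr hc))
      rw [sub_apply, h2, sub_zero] at h1
      exact h1

end FremlinSC49
end

section

/-!
# Functionals on the space of a tree
-/

set_option autoImplicit false

open Set Cardinal MeasureTheory FremlinSC40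

namespace FremlinSC49

variable {B : Set (Om → Bool)} {K : Type}

/-- The nodes. -/
abbrev Nd (B : Set (Om → Bool)) : Type := (a : Om) × (Restr B a) × Bool

/-- The function attached to a node; only the values up to the level matter. -/
noncomputable def val (t : Nd B) (η : Om) : Bool :=
  open Classical in if h : η < t.1 then t.2.1.1 ⟨η, h⟩ else t.2.2

lemma val_lt (t : Nd B) {η : Om} (h : η < t.1) : val t η = t.2.1.1 ⟨η, h⟩ := dif_pos h

lemma val_lev (t : Nd B) : val t t.1 = t.2.2 := dif_neg (lt_irrefl _)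

/-- The order of the tree. -/
def le (s t : Nd B) : Prop := s.1 ≤ t.1 ∧ ∀ η, η ≤ s.1 → val s η = val t η

lemma le_rfl' (s : Nd B) : le s s := ⟨le_refl _, fun _ _ => rfl⟩

lemma le_trans' {s t u : Nd B} (h1 : le s t) (h2 : le t u) : le s u :=
  ⟨h1.1.trans h2.1, fun η hη => (h1.2 η hη).trans (h2.2 η (hη.trans h1.1))⟩

lemma le_tree {s t u : Nd B} (h1 : le s u) (h2 : le t u) : le s t ∨ le t s := by
  rcases le_total s.1 t.1 with h | h
  · exact Or.inl ⟨h, fun η hη => (h1.2 η hη).trans (h2.2 η (hη.trans h)).symm⟩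
  · exact Or.inr ⟨h, fun η hη => (h2.2 η hη).trans (h1.2 η (hη.trans h)).symm⟩

/-- A node is determined by its level and the values up to its level. -/
lemma nd_ext {s t : Nd B} (h : s.1 = t.1) (h2 : ∀ η, η ≤ s.1 → val s η = val t η) : s = t := by
  obtain ⟨a, ⟨r, hr⟩, ε⟩ := s
  obtain ⟨a', ⟨r', hr'⟩, ε'⟩ := t
  dsimp only at h
  subst h
  have h3 : r = r' := by
    funext ⟨η, hη⟩
    have := h2 η (le_of_lt hη)
    rw [val_lt _ hη, val_lt _ hη] at this
    exact this
  have h4 : ε = ε' := by
    have := h2 a (le_refl _)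
    have e1 := val_lev (⟨a, ⟨r, hr⟩, ε⟩ : Nd B)
    have e2 := val_lev (⟨a, ⟨r', hr'⟩, ε'⟩ : Nd B)
    rw [e1, e2] at this
    exact this
  subst h3
  subst h4
  rfl

/-- The predecessors of a node form a countable set. -/
lemma pred_countable (t : Nd B) (H : Set (Nd B)) : {s ∈ H | le s t}.Countable := by
  have h1 : (Iic t.1).Countable := by
    have h2 : (Iic t.1) = Iio t.1 ∪ {t.1} := by
      ext x
      simp [le_iff_lt_or_eq]
    rw [h2]
    exact (om_countable_Iio t.1).union (countable_singleton _)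
  apply Set.Countable.mono (s₂ := {s | le s t})
  · intro s hs; exact hs.2
  · refine MapsTo.countable_of_injOn (f := fun s : Nd B => s.1) (t := Iic t.1)
      (fun s hs => hs.1) ?_ h1
    intro s hs s' hs' h
    exact nd_ext h fun η hη => (hs.2 η hη).trans (hs'.2 η (hη.trans_eq h)).symm

/-- The vector attached to a node. -/
noncomputable def vv (t : Nd B) : X B K := ux B K t.1 t.2.1.1 t.2.2

open Classical in
lemma vv_apply (t : Nd B) (c : B) : (vv (K := K) t).1 (Sum.inl c : E B K) =
    if ∀ η, η ≤ t.1 → c.1 η = val t η then (1 : ℝ) else 0 := by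
  unfold vv
  rw [ux_apply]
  congr 1
  apply propext
  constructor
  · rintro ⟨h1, h2⟩ η hη
    rcases hη.lt_or_eq with h | h
    · rw [val_lt t h]
      exact h1 ⟨η, h⟩
    · rw [h, val_lev]; exact h2
  · intro h
    refine ⟨fun η => ?_, ?_⟩
    · rw [h η.1 (le_of_lt η.2), val_lt t η.2]
    · rw [h t.1 (le_refl _), val_lev]

lemma vv_apply_inr (t : Nd B) (k : K) : (vv t).1 (Sum.inr k : E B K) = 0 :=
  ux_apply_inr _ _ _ _

/-- Incomparable nodes have disjoint supports. -/
lemma antichain_sum (F : Finset (Nd B)) (hF : ∀ s ∈ F, ∀ t ∈ F, s ≠ t → ¬ le s t) (e : E B K) :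
    ∑ t ∈ F, |(vv t).1 e| ≤ 1 := by
  classical
  rcases e with c | k
  · have key : ∀ t : Nd B, |(vv (K := K) t).1 (Sum.inl c : E B K)| =
        if ∀ η, η ≤ t.1 → c.1 η = val t η then (1 : ℝ) else 0 := by
      intro t
      rw [vv_apply]
      split_ifs <;> simp
    change ∑ t ∈ F, |(vv (K := K) t).1 (Sum.inl c : E B K)| ≤ 1
    simp only [key]
    by_cases h : ∃ t ∈ F, ∀ η, η ≤ t.1 → c.1 η = val t η
    · obtain ⟨t, ht, htc⟩ := h
      rw [Finset.sum_eq_single t]
      · rw [if_pos htc]
      · intro s hs hst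
        rw [if_neg]
        intro hsc
        rcases le_total s.1 t.1 with h | h
        · exact hF s hs t ht hst ⟨h, fun η hη => (hsc η hη).symm.trans (htc η (hη.trans h))⟩
        · exact hF t ht s hs hst.symm ⟨h, fun η hη => (htc η hη).symm.trans (hsc η (hη.trans h))⟩
      · intro h; exact absurd ht h
    · push Not at h
      rw [Finset.sum_eq_zero]
      · exact zero_le_one
      · intro t ht
        rw [if_neg]
        obtain ⟨η, h1, h2⟩ := h t ht
        intro h3
        exact h2 (h3 η h1)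
  · rw [Finset.sum_eq_zero]
    · exact zero_le_one
    · intro t _
      rw [vv_apply_inr]; simp

/-- The node of a branch at a level. -/
def nd (b : B) (ξ : Om) : Nd B := ⟨ξ, ⟨rs b.1 ξ, ⟨b.1, b.2, rfl⟩⟩, b.1 ξ⟩

lemma val_nd (b : B) (ξ : Om) {η : Om} (h : η ≤ ξ) : val (nd b ξ) η = b.1 η := by
  rcases h.lt_or_eq with h | h
  · rw [val_lt (nd b ξ) h]; rfl
  · rw [h]; exact val_lev (nd b ξ)

lemma iic_countable (a : Om) : (Iic a).Countable := by
  have h2 : (Iic a) = Iio a ∪ {a} := by
    ext x
    simp [le_iff_lt_or_eq]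
  rw [h2]
  exact (om_countable_Iio a).union (countable_singleton _)

/-- Different branches agree on a countable set of levels only. -/
lemma agree_countable {b c : Om → Bool} (h : b ≠ c) : {ξ | ∀ η, η ≤ ξ → b η = c η}.Countable := by
  obtain ⟨η, hη⟩ := Function.ne_iff.1 h
  refine (om_countable_Iio η).mono ?_
  intro ξ hξ
  rw [mem_Iio]
  by_contra hcon
  rw [not_lt] at hcon
  exact hη (hξ η hcon)

section functional

variable (x' : X B K →L[ℝ] ℝ)

/-- The limit along a branch. -/
noncomputable def lim (b : B) : ℝ := (along_const (K := K) b.1 x').choose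

lemma lim_spec (b : B) : {ξ | x' (vv (nd b ξ)) ≠ lim x' b}.Countable :=
  (along_const (K := K) b.1 x').choose_spec

lemma lim_sum (S : Finset B) : ∑ b ∈ S, |lim x' b| ≤ ‖x'‖ := by
  classical
  -- a level where all branches are separated and the values are stable
  have h1 : ((⋃ b ∈ S, {ξ | x' (vv (nd b ξ)) ≠ lim x' b}) ∪
      ⋃ b ∈ S, ⋃ c ∈ S, ⋃ (_ : b ≠ c), {ξ | ∀ η, η ≤ ξ → b.1 η = c.1 η}).Countable := by
    refine ((Finset.countable_toSet S).biUnion fun b _ => lim_spec x' b).union ?_
    refine (Finset.countable_toSet S).biUnion fun b _ =>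
      (Finset.countable_toSet S).biUnion fun c _ => ?_
    refine countable_iUnion fun h => ?_
    exact agree_countable (fun h' => h (Subtype.ext h'))
  obtain ⟨ξ, hξ⟩ : ∃ ξ, ξ ∉ ((⋃ b ∈ S, {ξ | x' (vv (nd b ξ)) ≠ lim x' b}) ∪
      ⋃ b ∈ S, ⋃ c ∈ S, ⋃ (_ : b ≠ c), {ξ | ∀ η, η ≤ ξ → b.1 η = c.1 η}) := by
    by_contra hcon
    push Not at hcon
    apply om_uncountable
    exact h1.mono fun x _ => hcon x
  simp only [mem_union, mem_iUnion, not_or, not_exists] at hξ
  obtain ⟨hξ1, hξ2⟩ := hξ
  have h2 : ∑ b ∈ S, |lim x' b| = ∑ b ∈ S, |x' (vv (nd b ξ))| := by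
    refine Finset.sum_congr rfl fun b hb => ?_
    have h3 := hξ1 b hb
    have h4 : x' (vv (nd b ξ)) = lim x' b := by
      by_contra h5
      exact h3 h5
    rw [h4]
  rw [h2]
  refine sum_abs_le S (fun b => vv (nd b ξ)) x' fun e => ?_
  have hinj : ∀ b ∈ S, ∀ c ∈ S, nd b ξ = nd c ξ → b = c := by
    intro b hb c hc h
    by_contra hbc
    apply hξ2 b hb c hc hbc
    intro η hη
    rw [← val_nd b ξ hη, ← val_nd c ξ hη, h]
  have h3 : ∑ b ∈ S, |(vv (nd b ξ)).1 e| = ∑ t ∈ S.image fun b => nd b ξ, |(vv t).1 e| := by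
    rw [Finset.sum_image hinj]
  rw [h3]
  apply antichain_sum
  intro s hs t ht hst hle
  obtain ⟨b, hb, rfl⟩ := Finset.mem_image.1 hs
  obtain ⟨c, hc, rfl⟩ := Finset.mem_image.1 ht
  have hbc : b ≠ c := by
    rintro rfl
    exact hst rfl
  apply hξ2 b hb c hc hbc
  intro η hη
  rw [← val_nd b ξ hη, ← val_nd c ξ hη]
  exact hle.2 η hη

lemma lim_summable : Summable fun b => |lim x' b| :=
  summable_of_sum_le (fun _ => abs_nonneg _) (lim_sum x')

lemma lim_countable : {b | lim x' b ≠ 0}.Countable := by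
  refine (lim_summable x').countable_support.mono ?_
  intro b hb
  simpa using hb

lemma ev_norm (e : E B K) : ‖ev B K e‖ ≤ 1 := by
  refine ContinuousLinearMap.opNorm_le_bound _ zero_le_one fun x => ?_
  rw [one_mul]
  exact ev_le e x

lemma ev_summable : Summable fun b : B => lim x' b • ev B K (Sum.inl b : E B K) := by
  apply Summable.of_norm
  refine Summable.of_nonneg_of_le (fun _ => norm_nonneg _) (fun b => ?_) (lim_summable x')
  rw [norm_smul, Real.norm_eq_abs]
  exact mul_le_of_le_one_right (abs_nonneg _) (ev_norm _)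

/-- The part of the functional which is concentrated on the branches. -/
noncomputable def bpart : X B K →L[ℝ] ℝ := ∑' b : B, lim x' b • ev B K (Sum.inl b : E B K)

lemma bpart_apply (x : X B K) :
    bpart x' x = ∑' b : B, lim x' b * x.1 (Sum.inl b : E B K) := by
  have h1 := (ContinuousLinearMap.apply ℝ ℝ x).map_tsum (ev_summable x')
  exact h1

lemma bpart_zero (x : X B K) (h : ∀ b : B, lim x' b ≠ 0 → ev B K (Sum.inl b : E B K) x = 0) :
    bpart x' x = 0 := by
  rw [bpart_apply]
  have h1 : ∀ b : B, lim x' b * x.1 (Sum.inl b : E B K) = 0 := by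
    intro b
    by_cases hb : lim x' b = 0
    · rw [hb, zero_mul]
    · have h2 := h b hb
      rw [ev_apply] at h2
      rw [h2, mul_zero]
  simp only [h1, tsum_zero]

/-- After subtraction of the branch part, the functional vanishes eventually along branches. -/
lemma rest_branch (b : B) : {ξ | (x' - bpart x') (vv (nd b ξ)) ≠ 0}.Countable := by
  classical
  have h1 : (⋃ c ∈ {c | lim x' c ≠ 0}, ⋃ (_ : c ≠ b),
      {ξ | ∀ η, η ≤ ξ → c.1 η = b.1 η}).Countable := by
    refine (lim_countable x').biUnion fun c _ => countable_iUnion fun h => ?_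
    exact agree_countable (fun h' => h (Subtype.ext h'))
  refine ((lim_spec x' b).union h1).mono ?_
  intro ξ hξ
  by_contra hcon
  simp only [mem_union, mem_iUnion, not_or, not_exists] at hcon
  obtain ⟨h2, h3⟩ := hcon
  apply hξ
  have h4 : x' (vv (nd b ξ)) = lim x' b := by
    by_contra h5
    exact h2 h5
  have h5 : bpart x' (vv (nd b ξ)) = lim x' b := by
    rw [bpart_apply, tsum_eq_single b]
    · rw [vv_apply, if_pos, mul_one]
      intro η hη
      exact (val_nd b ξ hη).symm
    · intro c hc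
      by_cases hc0 : lim x' c = 0
      · rw [hc0, zero_mul]
      · rw [vv_apply, if_neg, mul_zero]
        intro h6
        apply h3 c hc0 hc
        intro η hη
        rw [h6 η hη]
        exact val_nd b ξ hη
  rw [sub_apply, h4, h5, sub_self]

/-- The rest of the functional is carried by countably many nodes. -/
theorem rest_countable (hB : ∀ b : Om → Bool, (∀ a, rs b a ∈ Restr B a) → b ∈ B) :
    {t : Nd B | (x' - bpart x') (vv t) ≠ 0}.Countable := by
  classical
  set h := x' - bpart x' with hh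
  have hU : {t : Nd B | h (vv t) ≠ 0} ⊆ ⋃ n : ℕ, {t : Nd B | 1 / ((n : ℝ) + 1) < |h (vv t)|} := by
    intro t ht
    obtain ⟨n, hn⟩ := exists_nat_one_div_lt (abs_pos.2 ht)
    exact mem_iUnion.2 ⟨n, hn⟩
  refine Set.Countable.mono hU (countable_iUnion fun n => ?_)
  by_contra hcon
  obtain ⟨N, hN⟩ := exists_nat_gt (‖h‖ * ((n : ℝ) + 1))
  obtain ⟨C, hCH, hCc, hC⟩ := exists_chain (N := Nd B) le le_rfl' (fun _ _ _ => le_trans')
    (fun _ _ _ => le_tree) {t : Nd B | 1 / ((n : ℝ) + 1) < |h (vv t)|}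
    (fun t _ => pred_countable t _) N (by
      intro F hF1 hF2
      have h1 := sum_abs_le F (fun t => vv t) h (antichain_sum F hF2)
      have h2 : ∑ t ∈ F, 1 / ((n : ℝ) + 1) ≤ ∑ t ∈ F, |h (vv t)| :=
        Finset.sum_le_sum fun t ht => (hF1 t ht).le
      rw [Finset.sum_const, nsmul_eq_mul] at h2
      have h3 : (F.card : ℝ) * (1 / ((n : ℝ) + 1)) ≤ ‖h‖ := h2.trans h1
      rw [mul_one_div, div_le_iff₀ (by positivity)] at h3
      have h4 : (F.card : ℝ) < N := h3.trans_lt hN
      exact_mod_cast h4.le) hcon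
  -- the levels of the chain are unbounded
  have hlev : ∀ s ∈ C, ∀ t ∈ C, s.1 ≤ t.1 → le s t := by
    intro s hs t ht hst
    rcases hC s hs t ht with h1 | h1
    · exact h1
    · have h2 : t.1 = s.1 := le_antisymm h1.1 hst
      have h3 : t = s := nd_ext h2 h1.2
      rw [h3]
      exact le_rfl' s
  have hunb : ∀ a : Om, ∃ t ∈ C, a ≤ t.1 := by
    intro a
    by_contra hc
    push Not at hc
    apply hCc
    refine MapsTo.countable_of_injOn (f := fun s : Nd B => s.1) (t := Iio a)
      (fun s hs => hc s hs) ?_ (om_countable_Iio a)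
    intro s hs s' hs' hss
    exact nd_ext hss (hlev s hs s' hs' (le_of_eq hss)).2
  choose T hTC hTa using hunb
  let b : Om → Bool := fun η => val (T η) η
  have hb : ∀ t ∈ C, ∀ η, η ≤ t.1 → b η = val t η := by
    intro t ht η hη
    change val (T η) η = val t η
    rcases le_total (T η).1 t.1 with h1 | h1
    · exact (hlev _ (hTC η) t ht h1).2 η (hTa η)
    · exact ((hlev t ht _ (hTC η) h1).2 η hη).symm
  have hbB : b ∈ B := by
    apply hB
    intro a
    obtain ⟨c, hc, hcr⟩ := (T a).2.1.2
    refine ⟨c, hc, ?_⟩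
    funext η
    have h1 : b η.1 = val (T a) η.1 := hb _ (hTC a) _ ((le_of_lt η.2).trans (hTa a))
    have h2 : η.1 < (T a).1 := lt_of_lt_of_le η.2 (hTa a)
    change c η.1 = b η.1
    rw [h1, val_lt _ h2, ← hcr]
  -- contradiction
  apply hCc
  have h1 := rest_branch x' ⟨b, hbB⟩
  refine MapsTo.countable_of_injOn (f := fun s : Nd B => s.1) ?_ ?_ h1
  · intro t ht
    have h2 : t = nd ⟨b, hbB⟩ t.1 := by
      apply nd_ext (by rfl)
      intro η hη
      rw [val_nd ⟨b, hbB⟩ t.1 hη]
      exact (hb t ht η hη).symm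
    have h3 : 1 / ((n : ℝ) + 1) < |h (vv t)| := hCH ht
    change h (vv (nd ⟨b, hbB⟩ t.1)) ≠ 0
    rw [← h2]
    intro h4
    rw [h4, abs_zero] at h3
    have : (0 : ℝ) < 1 / ((n : ℝ) + 1) := by positivity
    linarith
  · intro s hs s' hs' hss
    exact nd_ext hss (hlev s hs s' hs' (le_of_eq hss)).2

end functional

end FremlinSC49
end

section

/-!
# The space of a tree with at most `ℵ₁` branches is controlled
-/

set_option autoImplicit false

open Set Cardinal MeasureTheory FremlinSC40

namespace FremlinSC49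

variable {B : Set (Om → Bool)} {K : Type}

/-- The additional vectors as elements of the space. -/
noncomputable def px (k : K) : X B K :=
  ⟨pt B K k, Submodule.le_topologicalClosure _ (Submodule.subset_span (Or.inr ⟨k, rfl⟩))⟩

lemma px_apply (k : K) (e : E B K) : (px k).1 e = open Classical in
    if e = Sum.inr k then (1 : ℝ) else 0 := by
  change pt B K k e = _
  unfold pt
  rw [ind_apply]
  rfl

lemma px_countable (f : X B K →L[ℝ] ℝ) : {k : K | f (px k) ≠ 0}.Countable := by
  classical
  have h1 : Summable fun k : K => |f (px k)| := by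
    apply summable_of_sum_le (fun _ => abs_nonneg _)
    intro S
    refine sum_abs_le S (fun k => px k) f fun e => ?_
    have h2 : ∀ k : K, |(px k : X B K).1 e| = if e = Sum.inr k then (1 : ℝ) else 0 := by
      intro k
      rw [px_apply]
      split_ifs <;> simp
    simp only [h2]
    rcases e with c | k0
    · rw [Finset.sum_eq_zero]
      · exact zero_le_one
      · intro k _
        rw [if_neg]
        intro h; exact absurd h (by simp)
    · by_cases h3 : k0 ∈ S
      · rw [Finset.sum_eq_single k0]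
        · rw [if_pos rfl]
        · intro k _ hk
          rw [if_neg]
          intro h
          exact hk (Sum.inr_injective h).symm
        · intro h; exact absurd h3 h
      · rw [Finset.sum_eq_zero]
        · exact zero_le_one
        · intro k hk
          rw [if_neg]
          intro h
          have : k0 = k := Sum.inr_injective h
          exact h3 (this ▸ hk)
  refine h1.countable_support.mono ?_
  intro k hk
  simpa using hk

/-- The inclusion into the ambient space. -/
noncomputable def inc : X B K →ₗ[ℝ] Z B K where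
  toFun x := x.1
  map_add' _ _ := rfl
  map_smul' _ _ := rfl

/-- All generators. -/
noncomputable def gen : (Nd B ⊕ K) → X B K := Sum.elim vv px

lemma gen_dense : (Submodule.span ℝ (range (gen (B := B) (K := K)))).topologicalClosure = ⊤ := by
  rw [eq_top_iff]
  intro x _
  have hx : x.1 ∈ closure (Submodule.span ℝ (G B K) : Set (Z B K)) := x.2
  have hsub : Submodule.span ℝ (G B K) ≤
      (Submodule.span ℝ (range (gen (B := B) (K := K)))).map inc := by
    rw [Submodule.span_le]
    rintro _ (⟨⟨a, r, ε⟩, rfl⟩ | ⟨k, rfl⟩)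
    · by_cases hr : r ∈ Restr B a
      · refine ⟨vv ⟨a, ⟨r, hr⟩, ε⟩, Submodule.subset_span ⟨Sum.inl ⟨a, ⟨r, hr⟩, ε⟩, rfl⟩, rfl⟩
      · have h1 : u B K a r ε = 0 := by
          have h2 : cone B K a r ε = ∅ := by
            rw [eq_empty_iff_forall_notMem]
            rintro e ⟨c, -, h, -⟩
            exact hr ⟨c.1, c.2, funext h⟩
          rw [u, h2, ind_empty]
        change u B K a r ε ∈ _
        rw [h1]
        exact Submodule.zero_mem _
    · exact ⟨px k, Submodule.subset_span ⟨Sum.inr k, rfl⟩, rfl⟩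
  change x ∈ closure (Submodule.span ℝ (range (gen (B := B) (K := K))) : Set (X B K))
  rw [Metric.mem_closure_iff] at hx ⊢
  intro ε hε
  obtain ⟨z, hz, hzx⟩ := hx ε hε
  obtain ⟨y, hy, rfl⟩ := hsub hz
  refine ⟨y, hy, ?_⟩
  rw [dist_eq_norm] at hzx ⊢
  exact hzx

theorem controlled_X (hB : ∀ b : Om → Bool, (∀ a, rs b a ∈ Restr B a) → b ∈ B)
    (hR : ∀ a, #(Restr B a) ≤ ℵ_ 1) (hBc : #B ≤ ℵ_ 1) (hK : #K ≤ ℵ_ 1) :
    ∃ D : Set (X B K →L[ℝ] ℝ), #D ≤ ℵ_ 1 ∧ Controlled D := by
  have h1 : #(Nd B) ≤ ℵ_ 1 := by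
    rw [Cardinal.mk_sigma]
    refine (Cardinal.sum_le_mk_mul_iSup _).trans ?_
    rw [Cardinal.mk_ord_toType]
    refine (mul_le_mul' le_rfl (ciSup_le' (a := ℵ_ 1) fun a => ?_)).trans ?_
    · rw [Cardinal.mk_prod, Cardinal.lift_id, Cardinal.lift_id]
      exact Cardinal.mul_le_of_le (Cardinal.aleph0_le_aleph 1) (hR a)
        ((Cardinal.mk_le_aleph0).trans (Cardinal.aleph0_le_aleph 1))
    · rw [Cardinal.mul_eq_self (Cardinal.aleph0_le_aleph 1)]
  have hI : #(Nd B ⊕ K) ≤ ℵ_ 1 := by
    rw [Cardinal.mk_sum, Cardinal.lift_id, Cardinal.lift_id]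
    exact Cardinal.add_le_of_le (Cardinal.aleph0_le_aleph 1) h1 hK
  refine controlled_of_support hI gen gen_dense
    (range fun b : B => ev B K (Sum.inl b : E B K)) (Cardinal.mk_range_le.trans hBc) ?_
  intro f
  refine ⟨bpart f, (fun b : B => ev B K (Sum.inl b : E B K)) '' {b | lim f b ≠ 0},
    image_subset_range _ _, (lim_countable f).image _, ?_, ?_⟩
  · intro x hx
    exact bpart_zero f x fun b hb => hx _ ⟨b, hb, rfl⟩
  · have h2 := ((rest_countable f hB).image (Sum.inl : Nd B → Nd B ⊕ K)).union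
      ((px_countable (f - bpart f)).image (Sum.inr : K → Nd B ⊕ K))
    refine h2.mono ?_
    rintro (t | k) h
    · exact Or.inl ⟨t, h, rfl⟩
    · exact Or.inr ⟨k, h, rfl⟩

end FremlinSC49
end
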