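import Pool.Agent.Lib.FremlinSC49.Crit
import Pool.Agent.Lib.FremlinSC40.Defs

section

/-!
# Measurability of stages and measurable selections
-/

set_option autoImplicit false

open Set Cardinal MeasureTheory Filter Topology

namespace FremlinSC49

set_option linter.unusedSectionVars false

section

variable {E : Type*} [TopologicalSpace E] {ι : Type*} [LinearOrder ι] [WellFoundedLT ι]

/-- Stages are measurable. -/
lemma measurable_stage (hι : ∀ a : ι, (Iio a).Countable) (L : Set (E → ℝ))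
    (hLc : ∀ f ∈ L, Continuous f)
    (hLa : ∀ f ∈ L, ∀ g ∈ L, ∀ n : ℕ, (fun x => f x + n * g x) ∈ L)
    (u : ι → E → ℝ) (hu : ∀ a, u a ∈ L)
    {Ω : Type*} [MeasurableSpace Ω] (F : Ω → Set E)
    (hF : ∀ ω, (F ω).Nonempty ∧ IsCompact (F ω))
    (hmeas : ∀ f ∈ L, Measurable fun ω => sSup (f '' F ω)) :
    ∀ a : ι, ∀ f ∈ L, Measurable fun ω => sSup (f '' stage u (F ω) a) := by
  have huc : ∀ a, Continuous (u a) := fun a => hLc _ (hu a)
  intro a
  induction a using WellFoundedLT.induction with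
  | ind a ih =>
    intro f hf
    have hlev : ∀ b, b < a → Measurable fun ω =>
        sSup (f '' (stage u (F ω) b ∩ lev u (F ω) b)) := by
      intro b hb
      have h1 : ∀ ω, sSup (f '' (stage u (F ω) b ∩ lev u (F ω) b)) =
          ⨅ n : ℕ, (sSup ((fun x => f x + n * u b x) '' stage u (F ω) b) -
            n * sSup (u b '' stage u (F ω) b)) := by
        intro ω
        exact sup_on_max (stage_compact huc (hF ω).2 b) (stage_nonempty huc (hF ω).2 (hF ω).1 b)
          (huc b) (hLc f hf)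
      simp only [h1]
      refine Measurable.iInf fun n => ?_
      exact (ih b hb _ (hLa f hf (u b) (hu b) n)).sub ((ih b hb (u b) (hu b)).const_mul _)
    by_cases ha : ∃ b, b < a
    · have h1 : ∀ ω, sSup (f '' stage u (F ω) a) =
          ⨅ b : {b // b < a}, sSup (f '' (stage u (F ω) b.1 ∩ lev u (F ω) b.1)) := fun ω =>
        sup_stage huc (hF ω).2 (hF ω).1 (hLc f hf) a ha
      simp only [h1]
      have : Countable {b // b < a} := (hι a).to_subtype
      exact Measurable.iInf fun b => hlev b.1 b.2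
    · have h1 : ∀ ω, stage u (F ω) a = F ω := by
        intro ω
        ext x
        rw [mem_stage]
        constructor
        · exact fun h => h.1
        · exact fun h => ⟨h, fun b hb => absurd ⟨b, hb⟩ ha⟩
      simp only [h1]
      exact hmeas f hf

/-- A selection which is measurable along the family `u`. -/
lemma exists_sel (hι : ∀ a : ι, (Iio a).Countable) (hmax : ∀ a : ι, ∃ b, a < b)
    (L : Set (E → ℝ)) (hLc : ∀ f ∈ L, Continuous f)
    (hLa : ∀ f ∈ L, ∀ g ∈ L, ∀ n : ℕ, (fun x => f x + n * g x) ∈ L)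
    (u : ι → E → ℝ) (hu : ∀ a, u a ∈ L)
    {Ω : Type*} [MeasurableSpace Ω] (F : Ω → Set E)
    (hF : ∀ ω, (F ω).Nonempty ∧ IsCompact (F ω))
    (hmeas : ∀ f ∈ L, Measurable fun ω => sSup (f '' F ω)) :
    ∃ y : Ω → E, (∀ ω, y ω ∈ F ω) ∧ ∀ b, Measurable fun ω => u b (y ω) := by
  have huc : ∀ a, Continuous (u a) := fun a => hLc _ (hu a)
  have hex : ∀ ω, ∃ x ∈ F ω, ∀ a, x ∈ stage u (F ω) a := fun ω =>
    exists_final huc (hF ω).2 (hF ω).1
  choose y hy1 hy2 using hex
  refine ⟨y, hy1, fun b => ?_⟩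
  obtain ⟨a, ha⟩ := hmax b
  have h1 : ∀ ω, u b (y ω) = sSup (u b '' stage u (F ω) b) := fun ω =>
    ((mem_stage u (F ω)).1 (hy2 ω a)).2 b ha
  simp only [h1]
  exact measurable_stage hι L hLc hLa u hu F hF hmeas b _ (hu b)

/-- The set of maximisers. -/
def maxSet (f : E → ℝ) (C : Set E) : Set E := {x ∈ C | f x = sSup (f '' C)}

lemma maxSet_spec {C : Set E} (hC : IsCompact C) (hne : C.Nonempty) {f : E → ℝ}
    (hf : Continuous f) : (maxSet f C).Nonempty ∧ IsCompact (maxSet f C) := by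
  constructor
  · obtain ⟨x, hx, hmax⟩ := hC.exists_isMaxOn hne hf.continuousOn
    refine ⟨x, hx, le_antisymm (le_csSup (hC.image hf).bddAbove (mem_image_of_mem f hx)) ?_⟩
    apply csSup_le (hne.image f)
    rintro _ ⟨y, hy, rfl⟩
    exact hmax hy
  · exact hC.inter_right (isClosed_eq hf continuous_const)

lemma measurable_maxSet (L : Set (E → ℝ)) (hLc : ∀ f ∈ L, Continuous f)
    (hLa : ∀ f ∈ L, ∀ g ∈ L, ∀ n : ℕ, (fun x => f x + n * g x) ∈ L)
    {Ω : Type*} [MeasurableSpace Ω] (F : Ω → Set E)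
    (hF : ∀ ω, (F ω).Nonempty ∧ IsCompact (F ω))
    (hmeas : ∀ f ∈ L, Measurable fun ω => sSup (f '' F ω)) (f : E → ℝ) (hf : f ∈ L) :
    ∀ g ∈ L, Measurable fun ω => sSup (g '' maxSet f (F ω)) := by
  intro g hg
  have h1 : ∀ ω, sSup (g '' maxSet f (F ω)) =
      ⨅ n : ℕ, (sSup ((fun x => g x + n * f x) '' F ω) - n * sSup (f '' F ω)) := fun ω =>
    sup_on_max (hF ω).2 (hF ω).1 (hLc f hf) (hLc g hg)
  simp only [h1]
  refine Measurable.iInf fun n => ?_
  exact (hmeas _ (hLa g hg f hf n)).sub ((hmeas f hf).const_mul _)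

end

/-- A point-finite family of measurable sets has only countably many non-null members. -/
lemma countable_of_pointFinite {Ω : Type*} [MeasurableSpace Ω] (μ : Measure Ω)
    [IsFiniteMeasure μ] {A : Type*} (B : A → Set Ω) (hB : ∀ a, MeasurableSet (B a))
    (hfin : ∀ ω, {a | ω ∈ B a}.Finite) : {a | μ (B a) ≠ 0}.Countable := by
  have h1 : ∀ k : ℕ, {a | ENNReal.ofReal (1 / ((k : ℝ) + 1)) ≤ μ (B a)}.Finite := by
    intro k
    by_contra hinf
    have hinf' : {a | ENNReal.ofReal (1 / ((k : ℝ) + 1)) ≤ μ (B a)}.Infinite := hinf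
    let e := hinf'.natEmbedding
    let U : ℕ → Set Ω := fun N => ⋃ n : {n : ℕ // N ≤ n}, B (e n.1).1
    have hU : ∀ N, MeasurableSet (U N) := fun N => MeasurableSet.iUnion fun n => hB _
    have hanti : Antitone U := by
      intro N M hNM ω hω
      simp only [U, mem_iUnion, Subtype.exists] at hω ⊢
      obtain ⟨n, hn, h⟩ := hω
      exact ⟨n, hNM.trans hn, h⟩
    have hempty : ⋂ N, U N = ∅ := by
      rw [eq_empty_iff_forall_notMem]
      intro ω hω
      simp only [U, mem_iInter, mem_iUnion, Subtype.exists] at hω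
      have h2 : {n : ℕ | ω ∈ B (e n).1}.Finite := by
        apply Set.Finite.preimage _ (hfin ω)
        intro n _ m _ hnm
        exact e.injective (Subtype.ext hnm)
      obtain ⟨N, hN⟩ := h2.bddAbove
      obtain ⟨n, hn, h3⟩ := hω (N + 1)
      have h4 : n ≤ N := hN h3
      omega
    have hlim := tendsto_measure_iInter_atTop (μ := μ) (fun N => (hU N).nullMeasurableSet) hanti
      ⟨0, measure_ne_top μ _⟩
    rw [hempty, measure_empty] at hlim
    have hpos : (0 : ENNReal) < ENNReal.ofReal (1 / ((k : ℝ) + 1)) := by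
      rw [ENNReal.ofReal_pos]
      positivity
    obtain ⟨N, hN⟩ := (hlim.eventually (gt_mem_nhds hpos)).exists
    have h5 : ENNReal.ofReal (1 / ((k : ℝ) + 1)) ≤ μ (B (e N).1) := (e N).2
    have h6 : μ (B (e N).1) ≤ μ (U N) := measure_mono fun ω hω => by
      simp only [U, mem_iUnion, Subtype.exists]
      exact ⟨N, le_rfl, hω⟩
    exact absurd (h5.trans h6) (not_le.2 hN)
  have h2 : {a | μ (B a) ≠ 0} ⊆
      ⋃ k : ℕ, {a | ENNReal.ofReal (1 / ((k : ℝ) + 1)) ≤ μ (B a)} := by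
    intro a ha
    have hne : μ (B a) ≠ 0 := ha
    have htop : μ (B a) ≠ ⊤ := measure_ne_top μ _
    have hpos : 0 < (μ (B a)).toReal := ENNReal.toReal_pos hne htop
    obtain ⟨k, hk⟩ := exists_nat_one_div_lt hpos
    simp only [mem_iUnion]
    refine ⟨k, ?_⟩
    change ENNReal.ofReal (1 / ((k : ℝ) + 1)) ≤ μ (B a)
    rw [← ENNReal.ofReal_toReal htop]
    exact ENNReal.ofReal_le_ofReal hk.le
  exact (countable_iUnion fun k => (h1 k).countable).mono h2

end FremlinSC49
end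

section

/-!
# The Ulam step
-/

set_option autoImplicit false

open Set Cardinal MeasureTheory Filter Topology

namespace FremlinSC49

open FremlinSC40 (Om)

universe u v

lemma om_max (a : Om) : ∃ b, a < b := by
  obtain ⟨b, hb⟩ := bdd_of_countable.{0} (S := {a}) (countable_singleton a)
  exact ⟨b, hb a rfl⟩

lemma om_lub (β : ℕ → Om) : ∃ b, IsLUB (range β) b := by
  have hne : {b : Om | ∀ n, β n ≤ b}.Nonempty := by
    obtain ⟨b, hb⟩ := bdd_of_countable.{0} (S := range β) (countable_range β)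
    exact ⟨b, fun n => (hb _ ⟨n, rfl⟩).le⟩
  refine ⟨WellFounded.min (wellFounded_lt (α := Om)) _ hne, ?_, ?_⟩
  · rintro _ ⟨n, rfl⟩
    exact WellFounded.min_mem (wellFounded_lt (α := Om)) _ hne n
  · intro c hc
    refine WellFounded.min_le (wellFounded_lt (α := Om)) ?_
    exact fun n => hc ⟨n, rfl⟩

section

variable {E : Type u} [TopologicalSpace E] {ι : Type u} [LinearOrder ι] [WellFoundedLT ι]
  {Ω : Type v} [MeasurableSpace Ω]

/-- `f` is constant on almost all stages `a`. -/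
def Flat (μ : Measure Ω) (u : ι → E → ℝ) (F : Ω → Set E) (f : E → ℝ) (a : ι) : Prop :=
  ∀ᵐ ω ∂μ, ∀ x ∈ stage u (F ω) a, ∀ y ∈ stage u (F ω) a, f x = f y

lemma Flat.mono {μ : Measure Ω} {u : ι → E → ℝ} {F : Ω → Set E} {f : E → ℝ} {a b : ι}
    (h : Flat μ u F f a) (hab : a ≤ b) : Flat μ u F f b := by
  filter_upwards [h] with ω hω x hx y hy
  exact hω x (stage_mono hab hx) y (stage_mono hab hy)

theorem ulam_step (hι : ∀ a : ι, (Iio a).Countable)
    (hbd : ∀ S : Set ι, S.Countable → ∃ a, ∀ ξ ∈ S, ξ < a)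
    (henum : ∃ s : ι → ℕ × Om, Function.Surjective s) (L : Set (E → ℝ))
    (hLc : ∀ f ∈ L, Continuous f)
    (hLa : ∀ f ∈ L, ∀ g ∈ L, ∀ n : ℕ, (fun x => f x + n * g x) ∈ L)
    (hLn : ∀ f ∈ L, (fun x => - f x) ∈ L)
    (u : ι → E → ℝ) (hu : ∀ a, u a ∈ L)
    (μ : Measure Ω) [IsFiniteMeasure μ] (F : Ω → Set E)
    (hF : ∀ ω, (F ω).Nonempty ∧ IsCompact (F ω))
    (hmeas : ∀ f ∈ L, Measurable fun ω => sSup (f '' F ω))
    (m : ℕ → Om → (E → ℝ)) (z : Om → (E → ℝ)) (f : E → ℝ)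
    (hm : ∀ n a, m n a ∈ L) (hz : ∀ a, z a ∈ L) (hf : f ∈ L)
    (h1 : ∀ (x y : E) (n : ℕ) (ε : ℝ), 0 < ε →
      {a | ε ≤ |(m n a x - m n a y) - (f x - f y)|}.Finite)
    (h2 : ∀ (x y : E) (a : Om),
      Tendsto (fun n => m n a x - m n a y) atTop (𝓝 (z a x - z a y)))
    (h3 : ∀ (β : ℕ → Om) (b : Om), StrictMono β → IsLUB (range β) b →
      ∀ x y : E, Tendsto (fun n => z (β n) x - z (β n) y) atTop (𝓝 (z b x - z b y)))
    (hflat : ∀ α, ∃ a, Flat μ u F (z α) a) : ∃ a, Flat μ u F f a := by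
  classical
  have huc : ∀ a, Continuous (u a) := fun a => hLc _ (hu a)
  have hmax : ∀ a : ι, ∃ b, a < b := fun a => by
    obtain ⟨b, hb⟩ := hbd {a} (countable_singleton a)
    exact ⟨b, hb a rfl⟩
  set G : ι → Ω → Set E := fun a ω => stage u (F ω) a with hG
  have hGc : ∀ a ω, IsCompact (G a ω) := fun a ω => stage_compact huc (hF ω).2 a
  have hGn : ∀ a ω, (G a ω).Nonempty := fun a ω => stage_nonempty huc (hF ω).2 (hF ω).1 a
  have hGm : ∀ a, ∀ g ∈ L, Measurable fun ω => sSup (g '' G a ω) := fun a g hg =>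
    measurable_stage hι L hLc hLa u hu F hF hmeas a g hg
  have hfc : Continuous f := hLc f hf
  have hnf : (fun x => - f x) ∈ L := hLn f hf
  set O : ι → Ω → ℝ := fun a ω => sSup (f '' G a ω) + sSup ((fun x => - f x) '' G a ω) with hO
  have hOm : ∀ a, Measurable (O a) := fun a => (hGm a f hf).add (hGm a _ hnf)
  -- the selections
  obtain ⟨s, hs⟩ := henum
  have hsel : ∀ a : ι, ∃ p q : Ω → E, (∀ ω, p ω ∈ G a ω) ∧ (∀ ω, q ω ∈ G a ω) ∧
      (∀ ω, f (p ω) - f (q ω) = O a ω) ∧ (∀ n α, Measurable fun ω => m n α (p ω)) ∧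
      (∀ n α, Measurable fun ω => m n α (q ω)) := by
    intro a
    have key : ∀ g ∈ L, ∃ p : Ω → E, (∀ ω, p ω ∈ maxSet g (G a ω)) ∧
        ∀ n α, Measurable fun ω => m n α (p ω) := by
      intro g hg
      obtain ⟨p, hp1, hp2⟩ := exists_sel (ι := ι) hι hmax L hLc hLa
        (fun b => m (s b).1 (s b).2) (fun b => hm _ _) (fun ω => maxSet g (G a ω))
        (fun ω => maxSet_spec (hGc a ω) (hGn a ω) (hLc g hg))
        (measurable_maxSet L hLc hLa (G a) (fun ω => ⟨hGn a ω, hGc a ω⟩) (hGm a) g hg)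
      refine ⟨p, hp1, fun n α => ?_⟩
      obtain ⟨b, hb⟩ := hs (n, α)
      have h := hp2 b
      simp only [hb] at h
      exact h
    obtain ⟨p, hp1, hp2⟩ := key f hf
    obtain ⟨q, hq1, hq2⟩ := key _ hnf
    refine ⟨p, q, fun ω => (hp1 ω).1, fun ω => (hq1 ω).1, fun ω => ?_, hp2, hq2⟩
    have e1 : f (p ω) = sSup (f '' G a ω) := (hp1 ω).2
    have e2 : - f (q ω) = sSup ((fun x => - f x) '' G a ω) := (hq1 ω).2
    change f (p ω) - f (q ω) = sSup (f '' G a ω) + sSup ((fun x => - f x) '' G a ω)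
    rw [← e1, ← e2]
    ring
  choose p q hpG hqG hpq hpm hqm using hsel
  have hOx : ∀ a ω, ∀ x ∈ G a ω, ∀ y ∈ G a ω, f x - f y ≤ O a ω := by
    intro a ω x hx y hy
    have e1 : f x ≤ sSup (f '' G a ω) :=
      le_csSup ((hGc a ω).image hfc).bddAbove (mem_image_of_mem f hx)
    have e2 : - f y ≤ sSup ((fun x => - f x) '' G a ω) :=
      le_csSup ((hGc a ω).image (hLc _ hnf)).bddAbove (mem_image_of_mem (fun x => - f x) hy)
    change f x - f y ≤ sSup (f '' G a ω) + sSup ((fun x => - f x) '' G a ω)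
    linarith
  have hOanti : ∀ a b, a ≤ b → ∀ ω, O b ω ≤ O a ω := by
    intro a b hab ω
    rw [← hpq b ω]
    exact hOx a ω _ (stage_mono hab (hpG b ω)) _ (stage_mono hab (hqG b ω))
  -- the Ulam argument
  have hulam : ∀ a : ι, ∃ α0 : Om, ∀ α, α0 ≤ α →
      ∀ᵐ ω ∂μ, z α (p a ω) - z α (q a ω) = O a ω := by
    intro a
    let B : ℕ → ℕ → Om → Set Ω := fun n k α =>
      {ω | 1 / ((k : ℝ) + 1) ≤ |(m n α (p a ω) - m n α (q a ω)) - O a ω|}
    have hBm : ∀ n k α, MeasurableSet (B n k α) := by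
      intro n k α
      have hme : Measurable fun ω => |(m n α (p a ω) - m n α (q a ω)) - O a ω| := by
        have := (((hpm a n α).sub (hqm a n α)).sub (hOm a)).norm
        exact this
      exact measurableSet_le measurable_const hme
    have hBc : ∀ n k, {α | μ (B n k α) ≠ 0}.Countable := by
      intro n k
      apply countable_of_pointFinite μ (B n k) (hBm n k)
      intro ω
      have h := h1 (p a ω) (q a ω) n (1 / ((k : ℝ) + 1)) (by positivity)
      rw [hpq a ω] at h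
      exact h
    have hS : (⋃ n : ℕ, ⋃ k : ℕ, {α | μ (B n k α) ≠ 0}).Countable :=
      countable_iUnion fun n => countable_iUnion fun k => hBc n k
    obtain ⟨α0, hα0⟩ := bdd_of_countable.{0} hS
    refine ⟨α0, fun α hα => ?_⟩
    have hnull : ∀ n k, μ (B n k α) = 0 := by
      intro n k
      by_contra hne
      have h4 := hα0 α (mem_iUnion.2 ⟨n, mem_iUnion.2 ⟨k, hne⟩⟩)
      exact absurd h4 (not_lt.2 hα)
    have hae : ∀ᵐ ω ∂μ, ∀ n k, ω ∉ B n k α := by
      rw [ae_all_iff]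
      intro n
      rw [ae_all_iff]
      intro k
      exact measure_eq_zero_iff_ae_notMem.1 (hnull n k)
    filter_upwards [hae] with ω hω
    have hconst : ∀ n, m n α (p a ω) - m n α (q a ω) = O a ω := by
      intro n
      by_contra hne
      have hpos : 0 < |(m n α (p a ω) - m n α (q a ω)) - O a ω| := abs_pos.2 (sub_ne_zero.2 hne)
      obtain ⟨k, hk⟩ := exists_nat_one_div_lt hpos
      exact hω n k hk.le
    have hlim := h2 (p a ω) (q a ω) α
    simp only [hconst] at hlim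
    exact tendsto_nhds_unique hlim tendsto_const_nhds
  choose αa hαa using hulam
  choose fl hfl using hflat
  -- suppose not
  by_contra hnot
  push Not at hnot
  have hpos : ∀ a, μ {ω | 0 < O a ω} ≠ 0 := by
    intro a h0
    apply hnot a
    have h4 : ∀ᵐ ω ∂μ, ω ∉ {ω | 0 < O a ω} := measure_eq_zero_iff_ae_notMem.1 h0
    filter_upwards [h4] with ω hω x hx y hy
    have e1 := hOx a ω x hx y hy
    have e2 := hOx a ω y hy x hx
    have e3 : O a ω ≤ 0 := not_lt.1 hω
    linarith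
  obtain ⟨ε, hε, hεa⟩ : ∃ ε : ℝ, 0 < ε ∧ ∀ a, μ {ω | ε ≤ O a ω} ≠ 0 := by
    by_contra hno
    push Not at hno
    have h5 : ∀ k : ℕ, ∃ a, μ {ω | 1 / ((k : ℝ) + 1) ≤ O a ω} = 0 := fun k =>
      hno _ (by positivity)
    choose ak hak using h5
    obtain ⟨a, ha⟩ := hbd (range ak) (countable_range ak)
    apply hpos a
    have h6 : {ω | 0 < O a ω} ⊆ ⋃ k : ℕ, {ω | 1 / ((k : ℝ) + 1) ≤ O (ak k) ω} := by
      intro ω hω
      obtain ⟨k, hk⟩ := exists_nat_one_div_lt (show 0 < O a ω from hω)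
      rw [mem_iUnion]
      exact ⟨k, hk.le.trans (hOanti _ _ (ha _ ⟨k, rfl⟩).le ω)⟩
    exact measure_mono_null h6 (measure_iUnion_null hak)
  -- the sequences
  obtain ⟨a00, -⟩ := hbd ∅ countable_empty
  have hnext : ∀ t : ι × Om, ∃ t' : ι × Om, t.1 ≤ t'.1 ∧ t.2 < t'.2 ∧ αa t.1 ≤ t'.2 ∧
      Flat μ u F (z t'.2) t'.1 := by
    rintro ⟨a, β⟩
    obtain ⟨β', hβ'⟩ := om_max (max β (αa a))
    refine ⟨(max a (fl β'), β'), le_max_left _ _, (le_max_left _ _).trans_lt hβ',
      (le_max_right _ _).trans hβ'.le, ?_⟩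
    exact (hfl β').mono (le_max_right _ _)
  choose nxt hn1 hn2 hn3 hn4 using hnext
  have hOmne : Nonempty Om := by
    rw [← Cardinal.mk_ne_zero_iff, Cardinal.mk_ord_toType]
    exact (Cardinal.aleph_pos 1).ne'
  obtain ⟨β00⟩ := hOmne
  let t : ℕ → ι × Om := fun n => Nat.rec (nxt (a00, β00)) (fun _ t => nxt t) n
  have ht : ∀ n, t (n + 1) = nxt (t n) := fun n => rfl
  have ht1 : Monotone fun n => (t n).1 := monotone_nat_of_le_succ fun n => by
    rw [ht n]; exact hn1 _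
  have ht2 : StrictMono fun n => (t n).2 := strictMono_nat_of_lt_succ fun n => by
    rw [ht n]; exact hn2 _
  have ht3 : ∀ n, αa (t n).1 ≤ (t (n + 1)).2 := fun n => by
    rw [ht n]; exact hn3 _
  have ht4 : ∀ n, Flat μ u F (z (t n).2) (t n).1 := by
    intro n
    cases n with
    | zero => exact hn4 _
    | succ n => rw [ht n]; exact hn4 _
  obtain ⟨b, hb⟩ := om_lub fun n => (t n).2
  obtain ⟨as, has⟩ := hbd (range fun n => (t n).1) (countable_range _)
  have hae1 : ∀ᵐ ω ∂μ, ∀ n, ∀ x ∈ stage u (F ω) (t n).1, ∀ y ∈ stage u (F ω) (t n).1,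
      z (t n).2 x = z (t n).2 y := ae_all_iff.2 ht4
  have hae2 : ∀ᵐ ω ∂μ, ∀ n, z b (p (t n).1 ω) - z b (q (t n).1 ω) = O (t n).1 ω := by
    rw [ae_all_iff]
    intro n
    exact hαa _ b ((ht3 n).trans (hb.1 ⟨n + 1, rfl⟩))
  have hex : ∃ ω, ε ≤ O as ω ∧ (∀ n, ∀ x ∈ stage u (F ω) (t n).1,
      ∀ y ∈ stage u (F ω) (t n).1, z (t n).2 x = z (t n).2 y) ∧
      ∀ n, z b (p (t n).1 ω) - z b (q (t n).1 ω) = O (t n).1 ω := by
    by_contra hno
    push Not at hno
    apply hεa as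
    rw [measure_eq_zero_iff_ae_notMem]
    filter_upwards [hae1, hae2] with ω e1 e2 e3
    obtain ⟨n, hn⟩ := hno ω e3 e1
    exact hn (e2 n)
  obtain ⟨ω, hω1, hω2, hω3⟩ := hex
  -- cluster points
  have hclus : ∀ y : ℕ → E, (∀ n, y n ∈ F ω) →
      ∃ x, Tendsto y (hyperfilter ℕ : Filter ℕ) (𝓝 x) := by
    intro y hy
    have h7 : ((hyperfilter ℕ).map y : Filter E) ≤ 𝓟 (F ω) := by
      rw [Ultrafilter.coe_map, le_principal_iff, mem_map]
      exact Eventually.of_forall hy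
    obtain ⟨x, -, hx⟩ := (hF ω).2.ultrafilter_le_nhds ((hyperfilter ℕ).map y) h7
    exact ⟨x, by rwa [Ultrafilter.coe_map] at hx⟩
  have hGF : ∀ a x, x ∈ G a ω → x ∈ F ω := fun a x hx => ((mem_stage u (F ω)).1 hx).1
  obtain ⟨x, hx⟩ := hclus (fun n => p (t n).1 ω) fun n => hGF _ _ (hpG _ ω)
  obtain ⟨y, hy⟩ := hclus (fun n => q (t n).1 ω) fun n => hGF _ _ (hqG _ ω)
  have hzlim : ∀ β, Tendsto (fun n => z β (p (t n).1 ω) - z β (q (t n).1 ω))
      (hyperfilter ℕ : Filter ℕ) (𝓝 (z β x - z β y)) := fun β =>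
    (((hLc _ (hz β)).tendsto x).comp hx).sub (((hLc _ (hz β)).tendsto y).comp hy)
  have hz0 : ∀ N, z (t N).2 x - z (t N).2 y = 0 := by
    intro N
    have h8 : ∀ᶠ n in (hyperfilter ℕ : Filter ℕ),
        z (t N).2 (p (t n).1 ω) - z (t N).2 (q (t n).1 ω) = 0 := by
      have h9 : ∀ᶠ n in (hyperfilter ℕ : Filter ℕ), N ≤ n :=
        Nat.hyperfilter_le_atTop (eventually_ge_atTop N)
      filter_upwards [h9] with n hn
      have h10 := hω2 N _ (stage_mono (ht1 hn) (hpG (t n).1 ω)) _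
        (stage_mono (ht1 hn) (hqG (t n).1 ω))
      rw [h10, sub_self]
    exact tendsto_nhds_unique_of_eventuallyEq (hzlim _) tendsto_const_nhds
      (h8.mono fun n hn => hn)
  have hzb : ε ≤ z b x - z b y := by
    refine ge_of_tendsto (hzlim b) (Eventually.of_forall fun n => ?_)
    rw [hω3 n]
    exact hω1.trans (hOanti _ _ (has _ ⟨n, rfl⟩).le ω)
  have hfin := h3 (fun n => (t n).2) b ht2 hb x y
  simp only [hz0] at hfin
  have h11 : z b x - z b y = 0 := tendsto_nhds_unique hfin tendsto_const_nhds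
  rw [h11] at hzb
  exact absurd hε (not_lt.2 hzb)

end

end FremlinSC49
end
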